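import Pool.Agent.H49Swan.Groth

/-!
Orders, the extension of scalars map, and Hopf orders in group algebras.
-/

set_option autoImplicit false

open scoped TensorProduct

namespace Pool.Agent.H49Swan

/-! ### Orders and extension of scalars -/

variable {R K A : Type} [CommRing R] [Field K] [Algebra R K] [Ring A] [Algebra K A]
  [Algebra R A] [IsScalarTower R K A]

/-- An `R`-order in the `K`-algebra `A`: an `R`-subalgebra which is finitely generated as an
`R`-module and spans `A` over `K`. -/
structure IsOrder (K : Type) {R A : Type} [CommRing R] [Field K] [Ring A] [Algebra K A]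
    [Algebra R A] (Λ : Subalgebra R A) : Prop where
  finite : Module.Finite R Λ
  span_eq_top : Submodule.span K (Λ : Set A) = ⊤

lemma commute_ofId {S B : Type} [CommSemiring S] [Semiring B] [Algebra S B] (k : S) (b : B) :
    Commute (Algebra.ofId S B k) b := Algebra.commutes k b

variable (K) in
/-- The natural map `K ⊗[R] Λ → A`, `k ⊗ a ↦ k a`. -/
noncomputable def scalarMap (Λ : Subalgebra R A) : K ⊗[R] Λ →ₐ[K] A :=
  Algebra.TensorProduct.lift (Algebra.ofId K A) Λ.val
    (fun k a => commute_ofId k (Λ.val a))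

lemma scalarMap_tmul (Λ : Subalgebra R A) (k : K) (a : Λ) :
    scalarMap K Λ (k ⊗ₜ[R] a) = k • (a : A) := by
  rw [scalarMap, Algebra.TensorProduct.lift_tmul, Algebra.smul_def]
  rfl

/-- For an order `Λ` in `A` the natural map `K ⊗[R] Λ → A` is bijective. -/
lemma IsOrder.bijective [IsFractionRing R K] {Λ : Subalgebra R A} (hΛ : IsOrder K Λ) :
    Function.Bijective (scalarMap K Λ) := by
  have hloc : IsLocalizedModule (nonZeroDivisors R) Λ.val.toLinearMap := by
    refine ⟨?_, ?_, ?_⟩
    · intro s
      have hs : IsUnit (algebraMap R K s) := IsLocalization.map_units K s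
      have h1 : algebraMap R (Module.End R A) s =
          LinearMap.restrictScalars R (algebraMap K (Module.End K A) (algebraMap R K s)) := by
        ext a
        simp
      obtain ⟨u, hu⟩ := hs
      rw [h1, ← hu]
      rw [Module.End.isUnit_iff]
      refine Function.bijective_iff_has_inverse.2
        ⟨fun a => ((u⁻¹ : Kˣ) : K) • a, fun a => ?_, fun a => ?_⟩ <;>
      simp [smul_smul]
    · intro y
      have hy : y ∈ Submodule.span K (Λ : Set A) := by rw [hΛ.span_eq_top]; trivial
      induction hy using Submodule.span_induction with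
      | mem x hx => exact ⟨(⟨x, hx⟩, 1), by simp⟩
      | zero => exact ⟨(0, 1), by simp⟩
      | add x y _ _ hx hy =>
        obtain ⟨⟨a, s⟩, ha⟩ := hx
        obtain ⟨⟨b, t⟩, hb⟩ := hy
        refine ⟨(t • a + s • b, s * t), ?_⟩
        simp only at ha hb ⊢
        rw [map_add, smul_add, mul_comm s t, mul_smul, ha, mul_comm t s, mul_smul, hb]
        rfl
      | smul k x _ hx =>
        obtain ⟨⟨a, s⟩, ha⟩ := hx
        obtain ⟨⟨r, t⟩, hr⟩ := IsLocalization.surj (nonZeroDivisors R) k
        refine ⟨(r • a, t * s), ?_⟩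
        simp only at ha hr ⊢
        have h2 : ((t * s : nonZeroDivisors R) : R) • (k • x) =
            (k * algebraMap R K t) • ((s : R) • x) := by
          rw [← algebraMap_smul K ((t * s : nonZeroDivisors R) : R) (k • x),
            ← algebraMap_smul K (s : R) x, smul_smul, smul_smul]
          congr 1
          simp only [Submonoid.coe_mul, map_mul]
          ring
        change ((t * s : nonZeroDivisors R) : R) • (k • x) = _
        have ha' : (s : R) • x = (a : A) := ha
        rw [h2, hr, ha']
        simp [algebraMap_smul]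
    · intro x y h
      exact ⟨1, by rw [Subtype.ext h]⟩
  have hbc : IsBaseChange K Λ.val.toLinearMap :=
    (isLocalizedModule_iff_isBaseChange (nonZeroDivisors R) K _).1 hloc
  have hfun : ⇑(scalarMap K Λ) = ⇑hbc.equiv := by
    funext x
    induction x using TensorProduct.induction_on with
    | zero => simp
    | tmul k a => rw [scalarMap_tmul, IsBaseChange.equiv_tmul]; rfl
    | add x y hx hy => rw [map_add, map_add, hx, hy]
  rw [hfun]
  exact hbc.equiv.bijective

variable (K) in
/-- The action of `K ⊗[R] Λ` on `K ⊗[R] M`, for a `Λ`-module `M`. -/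
noncomputable def tensorAction (Λ : Subalgebra R A) (M : Type) [AddCommGroup M] [Module Λ M]
    [Module R M] [IsScalarTower R Λ M] : K ⊗[R] Λ →ₐ[K] Module.End K (K ⊗[R] M) :=
  Algebra.TensorProduct.lift (Algebra.ofId K _)
    ((Module.End.baseChangeHom R K M).comp (Algebra.lsmul R R M))
    (fun k _ => commute_ofId k _)

/-- The action of `A` on `K ⊗[R] M` for a lattice `M` over an order `Λ` in `A`, obtained from the
isomorphism `K ⊗[R] Λ ≃ A`. -/
noncomputable def IsOrder.action [IsFractionRing R K] {Λ : Subalgebra R A} (hΛ : IsOrder K Λ)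
    (M : Type) [AddCommGroup M] [Module Λ M] [Module R M] [IsScalarTower R Λ M] :
    A →ₐ[K] Module.End K (K ⊗[R] M) :=
  (tensorAction K Λ M).comp (AlgEquiv.ofBijective (scalarMap K Λ) hΛ.bijective).symm

section baseChange

variable [IsFractionRing R K] {Λ : Subalgebra R A} (hΛ : IsOrder K Λ)

lemma tensorAction_tmul (M : Type) [AddCommGroup M] [Module Λ M]
    [Module R M] [IsScalarTower R Λ M] (k l : K) (a : Λ) (m : M) :
    tensorAction K Λ M (k ⊗ₜ[R] a) (l ⊗ₜ[R] m) = (k * l) ⊗ₜ[R] (a • m) := by
  rw [tensorAction, Algebra.TensorProduct.lift_tmul]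
  change (algebraMap K (Module.End K (K ⊗[R] M)) k *
    LinearMap.baseChange K (Algebra.lsmul R R M a)) (l ⊗ₜ[R] m) = _
  rw [Module.End.mul_apply, LinearMap.baseChange_tmul]
  simp [TensorProduct.smul_tmul']

lemma action_scalarMap (M : Type) [AddCommGroup M] [Module Λ M]
    [Module R M] [IsScalarTower R Λ M] (t : K ⊗[R] Λ) :
    hΛ.action M (scalarMap K Λ t) = tensorAction K Λ M t := by
  unfold IsOrder.action
  rw [AlgHom.comp_apply]
  congr 1
  exact (AlgEquiv.ofBijective (scalarMap K Λ) hΛ.bijective).symm_apply_apply t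

/-- Elements of `Λ` act on `K ⊗[R] M` through their action on `M`. -/
lemma action_coe (M : Type) [AddCommGroup M] [Module Λ M]
    [Module R M] [IsScalarTower R Λ M] (a : Λ) (k : K) (m : M) :
    hΛ.action M (a : A) (k ⊗ₜ[R] m) = k ⊗ₜ[R] (a • m) := by
  have h : (a : A) = scalarMap K Λ (1 ⊗ₜ[R] a) := by rw [scalarMap_tmul, one_smul]
  rw [h, action_scalarMap, tensorAction_tmul, one_mul]

lemma action_natural (M N : Type) [AddCommGroup M] [Module Λ M]
    [Module R M] [IsScalarTower R Λ M] [AddCommGroup N] [Module Λ N]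
    [Module R N] [IsScalarTower R Λ N] (f : M →ₗ[Λ] N) (a : A) (x : K ⊗[R] M) :
    (f.restrictScalars R).baseChange K (hΛ.action M a x) =
      hΛ.action N a ((f.restrictScalars R).baseChange K x) := by
  obtain ⟨t, rfl⟩ := hΛ.bijective.surjective a
  rw [action_scalarMap, action_scalarMap]
  induction t using TensorProduct.induction_on with
  | zero => simp
  | add s t hs ht => simp only [map_add, LinearMap.add_apply, hs, ht]
  | tmul k a =>
    induction x using TensorProduct.induction_on with
    | zero => simp
    | add x y hx hy => simp only [map_add, hx, hy]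
    | tmul l m => simp [tensorAction_tmul]

/-- The extension of scalars `K ⊗[R] M` of a `Λ`-lattice `M`, as an `A`-module. -/
noncomputable def IsOrder.extend (M : LatticeMod R Λ) : FGMod A :=
  letI : Module A (K ⊗[R] M.carrier) := Module.compHom _ (hΛ.action M.carrier).toRingHom
  haveI : IsScalarTower K A (K ⊗[R] M.carrier) := ⟨fun k a x => by
    change hΛ.action M.carrier (k • a) x = k • hΛ.action M.carrier a x
    rw [map_smul]; rfl⟩
  haveI : Module.Finite R Λ := hΛ.finite
  haveI : Module.Finite R M.carrier := Module.Finite.trans Λ M.carrier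
  { carrier := K ⊗[R] M.carrier
    finite := Module.Finite.of_restrictScalars_finite K A (K ⊗[R] M.carrier) }

/-- The `A`-linear map `K ⊗[R] M → K ⊗[R] N` induced by a map of `Λ`-lattices. -/
noncomputable def IsOrder.extendMap {M N : LatticeMod R Λ} (f : M.carrier →ₗ[Λ] N.carrier) :
    (hΛ.extend M).carrier →ₗ[A] (hΛ.extend N).carrier where
  toFun := (f.restrictScalars R).baseChange K
  map_add' := map_add _
  map_smul' a x := action_natural hΛ M.carrier N.carrier f a x

/-- The map `G₀^R(Λ) → G₀(A)`, `[M] ↦ [K ⊗[R] M]`. -/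
noncomputable def IsOrder.swanMap : G0R R Λ →+ G0 A :=
  QuotientAddGroup.lift _ (FreeAbelianGroup.lift (fun M => G0.cls (hΛ.extend M))) (by
    rw [AddSubgroup.closure_le]
    rintro r ⟨L, M, N, ⟨f, g, hf, hfg, hg⟩, rfl⟩
    have hflat : Module.Flat R K := IsLocalization.flat K (nonZeroDivisors R)
    have h1 : Function.Injective (hΛ.extendMap f) :=
      Module.Flat.lTensor_preserves_injective_linearMap (M := K) (f.restrictScalars R) hf
    have h2 : Function.Exact (hΛ.extendMap f) (hΛ.extendMap g) :=
      lTensor_exact (Q := K) (f := f.restrictScalars R) (g := g.restrictScalars R) hfg hg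
    have h3 : Function.Surjective (hΛ.extendMap g) :=
      LinearMap.lTensor_surjective K (g := g.restrictScalars R) hg
    have h4 : (FreeAbelianGroup.of (hΛ.extend M) - FreeAbelianGroup.of (hΛ.extend L) -
        FreeAbelianGroup.of (hΛ.extend N)) ∈ AddSubgroup.closure (FGMod.relations A) :=
      AddSubgroup.subset_closure ⟨_, _, _, ⟨_, _, h1, h2, h3⟩, rfl⟩
    rw [SetLike.mem_coe, AddMonoidHom.mem_ker, map_sub, map_sub, FreeAbelianGroup.lift_apply_of,
      FreeAbelianGroup.lift_apply_of, FreeAbelianGroup.lift_apply_of]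
    exact (QuotientAddGroup.eq_zero_iff _).2 h4)

@[simp] lemma swanMap_cls (M : LatticeMod R Λ) :
    hΛ.swanMap (G0R.cls M) = G0.cls (hΛ.extend M) := by
  unfold G0R.cls IsOrder.swanMap
  rw [QuotientAddGroup.lift_mk, FreeAbelianGroup.lift_apply_of]

/-- Modules related by a bijective linear map have the same class. -/
lemma G0.cls_eq {B : Type} [Ring B] (M N : FGMod B) (f : M.carrier →ₗ[B] N.carrier)
    (hf : Function.Bijective f) : G0.cls M = G0.cls N := by
  let Z : FGMod B := { carrier := PUnit }
  have key : ∀ (M N : FGMod B) (f : M.carrier →ₗ[B] N.carrier), Function.Bijective f →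
      G0.cls N = G0.cls M + G0.cls Z := by
    intro M N f hf
    have h : (FreeAbelianGroup.of N - FreeAbelianGroup.of M - FreeAbelianGroup.of Z) ∈
        AddSubgroup.closure (FGMod.relations B) := by
      refine AddSubgroup.subset_closure ⟨M, N, Z, ⟨f, 0, hf.1, ?_, ?_⟩, rfl⟩
      · intro y
        simp only [LinearMap.zero_apply, true_iff]
        exact hf.2 y
      · intro y
        exact ⟨0, Subsingleton.elim _ _⟩
    have h2 := (QuotientAddGroup.eq_zero_iff _).2 h
    rw [QuotientAddGroup.mk_sub, QuotientAddGroup.mk_sub] at h2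
    unfold G0.cls
    rw [sub_sub, sub_eq_zero] at h2
    exact h2
  have hZ : G0.cls Z = 0 := by
    have := key Z Z LinearMap.id Function.bijective_id
    exact left_eq_add.1 this
  rw [key M N f hf, hZ, add_zero]

end baseChange

/-! ### Hopf orders in group algebras -/

/-- An `R`-Hopf order in the group algebra `K[G]` with its usual Hopf algebra structure: an order
`Λ` with `Δ(Λ) ⊆ Λ ⊗ Λ`, `ε(Λ) ⊆ R` and `S(Λ) ⊆ Λ`. -/
structure IsHopfOrder (K : Type) {R G : Type} [CommRing R] [Field K] [Algebra R K] [Group G]
    (Λ : Subalgebra R (MonoidAlgebra K G)) : Prop extends IsOrder K Λ where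
  comul_mem : ∀ a ∈ Λ, Coalgebra.comul (R := K) a ∈ Submodule.span R
    {t : MonoidAlgebra K G ⊗[K] MonoidAlgebra K G | ∃ b ∈ Λ, ∃ c ∈ Λ, t = b ⊗ₜ[K] c}
  counit_mem : ∀ a ∈ Λ, Coalgebra.counit (R := K) a ∈ (algebraMap R K).range
  antipode_mem : ∀ a ∈ Λ, HopfAlgebra.antipode K a ∈ Λ

end Pool.Agent.H49Swan
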