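import Pool.Agent.H49Swan.Stmt
import Pool.Agent.H49Swan.Defs

/-!
The map `IsOrder.swanMap` is the map described in the final statement.
-/

set_option autoImplicit false

open scoped TensorProduct

namespace Pool.Agent.H49Swan

section extension

variable {R K A : Type} [CommRing R] [Field K] [Algebra R K] [IsFractionRing R K]
  [Ring A] [Algebra K A] [Algebra R A] [IsScalarTower R K A] {Λ : Subalgebra R A}

omit [Algebra K A] [IsScalarTower R K A] in
lemma one_tmul_injective (M : LatticeMod R Λ) :
    Function.Injective (fun m : M.carrier => (1 : K) ⊗ₜ[R] m) := by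
  have h1 : Function.Injective (LinearMap.rTensor M.carrier (Algebra.linearMap R K)) :=
    Module.Flat.rTensor_preserves_injective_linearMap _ (IsFractionRing.injective R K)
  have h2 : Function.Injective (fun m : M.carrier => (1 : R) ⊗ₜ[R] m) := by
    intro m n h
    have := congrArg (TensorProduct.lid R M.carrier) h
    simpa using this
  intro m n h
  apply h2
  apply h1
  simpa using h

lemma extend_smul_tmul (hΛ : IsOrder K Λ) (M : LatticeMod R Λ) (k : K) (m : M.carrier) :
    hΛ.action M.carrier (algebraMap K A k) (1 ⊗ₜ[R] m) = k ⊗ₜ[R] m := by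
  rw [AlgHom.commutes, Module.algebraMap_end_apply, TensorProduct.smul_tmul', smul_eq_mul, mul_one]

/-- The map `M → K ⊗[R] M`, `m ↦ 1 ⊗ m`. -/
noncomputable def extendIncl (hΛ : IsOrder K Λ) (M : LatticeMod R Λ) :
    M.carrier →ₛₗ[(Λ.val : Λ →+* A)] (hΛ.extend M).carrier where
  toFun := fun m => (1 : K) ⊗ₜ[R] m
  map_add' := fun _ _ => TensorProduct.tmul_add _ _ _
  map_smul' := fun a m => (action_coe hΛ M.carrier a 1 m).symm

/-- `K ⊗[R] M` is an extension of scalars of `M`. -/
lemma isExtension_extend (hΛ : IsOrder K Λ) (M : LatticeMod R Λ) :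
    IsExtension (Λ.val : Λ →+* A) M (hΛ.extend M) := by
  refine ⟨extendIncl hΛ M, one_tmul_injective M, ?_⟩
  rw [eq_top_iff]
  rintro x -
  change K ⊗[R] M.carrier at x
  induction x using TensorProduct.induction_on with
  | zero => exact Submodule.zero_mem _
  | add x y hx hy => exact Submodule.add_mem _ hx hy
  | tmul k m =>
    have h := Submodule.smul_mem (Submodule.span A (Set.range (extendIncl hΛ M)))
      (algebraMap K A k) (Submodule.subset_span ⟨m, rfl⟩)
    have h2 : (algebraMap K A k • extendIncl hΛ M m) =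
      (k ⊗ₜ[R] m : K ⊗[R] M.carrier) := extend_smul_tmul hΛ M k m
    rw [h2] at h
    exact h

/-- Any extension of scalars has the class of `K ⊗[R] M`. -/
lemma cls_extend_eq (hΛ : IsOrder K Λ) (M : LatticeMod R Λ) (V : FGMod A)
    (h : IsExtension (Λ.val : Λ →+* A) M V) : G0.cls (hΛ.extend M) = G0.cls V := by
  obtain ⟨ι, hι, hspan⟩ := h
  let _ : Module K V.carrier := Module.compHom V.carrier (algebraMap K A)
  let _ : Module R V.carrier := Module.compHom V.carrier (algebraMap R A)
  have hK : ∀ (k : K) (v : V.carrier), k • v = algebraMap K A k • v := fun _ _ => rfl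
  have hR : ∀ (r : R) (v : V.carrier), r • v = algebraMap R A r • v := fun _ _ => rfl
  have _ : IsScalarTower R K V.carrier := ⟨fun r k v => by
    rw [hK, hR, hK, Algebra.smul_def, map_mul, ← IsScalarTower.algebraMap_apply, mul_smul]⟩
  have hιs : ∀ (a : Λ) (m : M.carrier), ι (a • m) = (a : A) • ι m := fun a m => ι.map_smulₛₗ a m
  let ι' : M.carrier →ₗ[R] V.carrier :=
    { toFun := ι
      map_add' := map_add ι
      map_smul' := fun r m => by
        rw [← algebraMap_smul Λ r m, hιs, hR]
        rfl }
  let f0 : K ⊗[R] M.carrier →ₗ[K] V.carrier := LinearMap.liftBaseChange K ι'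
  have hf0 : ∀ (k : K) (m : M.carrier), f0 (k ⊗ₜ[R] m) = k • ι m := fun k m => by
    change LinearMap.liftBaseChange K ι' (k ⊗ₜ[R] m) = _
    rw [LinearMap.liftBaseChange_tmul]
    rfl
  have hlin : ∀ (a : A) (x : K ⊗[R] M.carrier), f0 (hΛ.action M.carrier a x) = a • f0 x := by
    intro a x
    obtain ⟨t, rfl⟩ := hΛ.bijective.surjective a
    rw [action_scalarMap]
    induction t using TensorProduct.induction_on with
    | zero => simp
    | add s t hs ht => rw [map_add, LinearMap.add_apply, map_add, hs, ht, map_add, add_smul]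
    | tmul k a =>
      induction x using TensorProduct.induction_on with
      | zero => simp
      | add x y hx hy => rw [map_add, map_add, hx, hy, map_add, smul_add]
      | tmul l m =>
        rw [tensorAction_tmul, hf0, hf0, scalarMap_tmul, hιs, hK, hK, smul_smul, smul_smul,
          map_mul, Algebra.smul_def, mul_assoc, mul_assoc, Algebra.commutes l (a : A)]
  have hsurj : Function.Surjective f0 := by
    have h1 : ∀ v ∈ Submodule.span A (Set.range ι), ∃ x, f0 x = v := by
      intro v hv
      induction hv using Submodule.span_induction with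
      | mem v hv =>
        obtain ⟨m, rfl⟩ := hv
        exact ⟨1 ⊗ₜ[R] m, by rw [hf0, one_smul]⟩
      | zero => exact ⟨0, map_zero _⟩
      | add v w _ _ hv hw =>
        obtain ⟨x, rfl⟩ := hv
        obtain ⟨y, rfl⟩ := hw
        exact ⟨x + y, map_add _ _ _⟩
      | smul a v _ hv =>
        obtain ⟨x, rfl⟩ := hv
        exact ⟨_, hlin a x⟩
    intro v
    exact h1 v (by rw [hspan]; trivial)
  have hinj : Function.Injective f0 := by
    rw [injective_iff_map_eq_zero]
    intro x hx
    have _ : IsLocalizedModule (nonZeroDivisors R) (TensorProduct.mk R K M.carrier 1) :=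
      (isLocalizedModule_iff_isBaseChange (nonZeroDivisors R) K _).2
        (TensorProduct.isBaseChange R M.carrier K)
    obtain ⟨⟨m, s⟩, hs⟩ := IsLocalizedModule.surj (nonZeroDivisors R)
      (TensorProduct.mk R K M.carrier 1) x
    have hs' : algebraMap R K s • x = (1 : K) ⊗ₜ[R] m := by
      rw [algebraMap_smul]
      exact hs
    have h1 : f0 ((1 : K) ⊗ₜ[R] m) = 0 := by rw [← hs', map_smul, hx, smul_zero]
    rw [hf0, one_smul] at h1
    have h2 : m = 0 := hι (by rw [h1, map_zero])
    rw [h2, TensorProduct.tmul_zero] at hs'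
    have h3 : algebraMap R K s ≠ 0 := by
      have := IsLocalization.map_units K s
      exact this.ne_zero
    exact (smul_eq_zero.1 hs').resolve_left h3
  exact G0.cls_eq (hΛ.extend M) V
    { toFun := f0
      map_add' := map_add f0
      map_smul' := fun a x => hlin a x } ⟨hinj, hsurj⟩

theorem swanPropertyFails_of (hΛ : IsOrder K Λ) (h : ¬ Function.Injective hΛ.swanMap) :
    SwanPropertyFails R (Λ.val : Λ →+* A) := by
  refine ⟨hΛ.swanMap, fun M V hV => ?_, fun ψ hψ => ?_, h⟩
  · rw [swanMap_cls]
    exact cls_extend_eq hΛ M V hV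
  · apply QuotientAddGroup.addMonoidHom_ext
    apply FreeAbelianGroup.lift_ext
    intro M
    have h1 : ψ (G0R.cls M) = G0.cls (hΛ.extend M) := hψ M _ (isExtension_extend hΛ M)
    have h2 : hΛ.swanMap (G0R.cls M) = G0.cls (hΛ.extend M) := swanMap_cls hΛ M
    exact h1.trans h2.symm

end extension

/-- Hopf orders as subalgebras and Hopf orders as inclusions. -/
lemma isHopfOrderIncl_val {R K G : Type} [CommRing R] [Field K] [Algebra R K] [Group G]
    {Λ : Subalgebra R (MonoidAlgebra K G)} (h : IsHopfOrder K Λ) :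
    IsHopfOrderIncl R K (Λ.val : Λ →+* MonoidAlgebra K G) where
  isOrderIncl :=
    { injective := Subtype.val_injective
      map_scalar := fun r => (IsScalarTower.algebraMap_apply R K (MonoidAlgebra K G) r)
      finite := h.finite
      span_eq_top := by
        rw [← h.span_eq_top]
        congr 1
        exact Subtype.range_coe }
  comul_mem := by
    rintro _ ⟨a, rfl⟩
    have h1 := h.comul_mem a a.2
    refine Submodule.span_induction (p := fun x _ => x ∈ AddSubmonoid.closure
      {t : MonoidAlgebra K G ⊗[K] MonoidAlgebra K G |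
        ∃ b ∈ Set.range (Λ.val : Λ →+* MonoidAlgebra K G),
        ∃ c ∈ Set.range (Λ.val : Λ →+* MonoidAlgebra K G), t = b ⊗ₜ[K] c}) ?_ ?_ ?_ ?_ h1
    · rintro _ ⟨b, hb, c, hc, rfl⟩
      exact AddSubmonoid.subset_closure ⟨b, ⟨⟨b, hb⟩, rfl⟩, c, ⟨⟨c, hc⟩, rfl⟩, rfl⟩
    · exact AddSubmonoid.zero_mem _
    · intro x y _ _ hx hy
      exact AddSubmonoid.add_mem _ hx hy
    · intro r x hx0 hx
      clear hx0
      induction hx using AddSubmonoid.closure_induction with
      | mem x hx =>
        obtain ⟨_, ⟨b, rfl⟩, _, ⟨c, rfl⟩, rfl⟩ := hx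
        refine AddSubmonoid.subset_closure ⟨_, ⟨r • b, rfl⟩, _, ⟨c, rfl⟩, ?_⟩
        rfl
      | zero => rw [smul_zero]; exact AddSubmonoid.zero_mem _
      | add x y _ _ hx hy => rw [smul_add]; exact AddSubmonoid.add_mem _ hx hy
  counit_mem := by
    rintro _ ⟨a, rfl⟩
    obtain ⟨r, hr⟩ := h.counit_mem a a.2
    exact ⟨r, hr.symm⟩
  antipode_mem a := ⟨⟨_, h.antipode_mem a a.2⟩, rfl⟩

end Pool.Agent.H49Swan
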