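import Mathlib

/-!
Lattices with a `twisted` pair of operators: an endomorphism `Y` with `Y ^ n = 1` and an
automorphism `X` with `Y X = ω ^ m X Y`, where `ω` is a primitive `n`-th root of unity and
`n = p m`.  The length of the quotient by the sum of the eigenspaces of `Y` is additive
modulo `p` in short exact sequences.
-/

set_option autoImplicit false

namespace Pool.Agent.H49Swan

open Module

section length

variable {R : Type*} [CommRing R]

/-- chain rule for lengths of quotients along an injective map. -/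
lemma length_map_eq {E V : Type*} [AddCommGroup E] [Module R E] [AddCommGroup V] [Module R V]
    (σ : E →ₗ[R] V) (hσ : Function.Injective σ) (B : Submodule R E) :
    Module.length R (V ⧸ B.map σ) =
      Module.length R (E ⧸ B) + Module.length R (V ⧸ LinearMap.range σ) := by
  have hle : B.map σ ≤ LinearMap.range σ := LinearMap.map_le_range
  refine Module.length_eq_add_of_exact (Submodule.mapQ B (B.map σ) σ (Submodule.le_comap_map _ _))
    (Submodule.factor hle) ?_ ?_ ?_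
  · rw [← LinearMap.ker_eq_bot, LinearMap.ker_eq_bot']
    intro x hx
    obtain ⟨x, rfl⟩ := Submodule.mkQ_surjective _ x
    simp only [Submodule.mkQ_apply, Submodule.mapQ_apply, Submodule.Quotient.mk_eq_zero] at hx ⊢
    obtain ⟨y, hy, hyx⟩ := hx
    rwa [← hσ hyx]
  · exact Submodule.factor_surjective hle
  · intro x
    obtain ⟨x, rfl⟩ := Submodule.mkQ_surjective _ x
    constructor
    · intro h
      have h' : x ∈ LinearMap.range σ := by
        rw [← Submodule.Quotient.mk_eq_zero]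
        exact h
      obtain ⟨y, rfl⟩ := h'
      exact ⟨Submodule.Quotient.mk y, by simp⟩
    · rintro ⟨y, hy⟩
      obtain ⟨y, rfl⟩ := Submodule.mkQ_surjective _ y
      rw [← hy]
      have h' : (Submodule.Quotient.mk (σ y) : V ⧸ LinearMap.range σ) = 0 := by
        rw [Submodule.Quotient.mk_eq_zero]
        exact ⟨y, rfl⟩
      exact h'

/-- the quotient by a submodule in a short exact sequence. -/
lemma length_comap_map {V' V V'' : Type*} [AddCommGroup V'] [Module R V'] [AddCommGroup V]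
    [Module R V] [AddCommGroup V''] [Module R V''] (f : V' →ₗ[R] V) (g : V →ₗ[R] V'')
    (hg : Function.Surjective g) (hfg : Function.Exact f g) (S : Submodule R V) :
    Module.length R (V ⧸ S) =
      Module.length R (V' ⧸ S.comap f) + Module.length R (V'' ⧸ S.map g) := by
  refine Module.length_eq_add_of_exact (Submodule.mapQ (S.comap f) S f le_rfl)
    (Submodule.mapQ S (S.map g) g (Submodule.le_comap_map _ _)) ?_ ?_ ?_
  · rw [← LinearMap.ker_eq_bot, LinearMap.ker_eq_bot']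
    intro x hx
    obtain ⟨x, rfl⟩ := Submodule.mkQ_surjective _ x
    simpa using hx
  · intro y
    obtain ⟨y, rfl⟩ := Submodule.mkQ_surjective _ y
    obtain ⟨x, rfl⟩ := hg y
    exact ⟨Submodule.Quotient.mk x, by simp⟩
  · intro x
    obtain ⟨x, rfl⟩ := Submodule.mkQ_surjective _ x
    constructor
    · intro h
      simp only [Submodule.mkQ_apply, Submodule.mapQ_apply, Submodule.Quotient.mk_eq_zero] at h
      obtain ⟨s, hs, hsx⟩ := h
      have h1 : g (x - s) = 0 := by rw [map_sub, hsx, sub_self]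
      obtain ⟨y, hy⟩ := (hfg _).1 h1
      refine ⟨Submodule.Quotient.mk y, ?_⟩
      simp only [Submodule.mapQ_apply, Submodule.mkQ_apply]
      rw [hy, Submodule.Quotient.eq]
      simpa using hs
    · rintro ⟨y, hy⟩
      obtain ⟨y, rfl⟩ := Submodule.mkQ_surjective _ y
      rw [← hy]
      simp [hfg.apply_apply_eq_zero]

/-- A finitely generated module over a discrete valuation ring which is killed by a nonzero
scalar has finite length. -/
lemma length_ne_top_of_torsion [IsDomain R] [IsDiscreteValuationRing R] {V : Type*}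
    [AddCommGroup V] [Module R V] [Module.Finite R V] (a : R) (ha : a ≠ 0)
    (h : ∀ v : V, a • v = 0) : Module.length R V ≠ ⊤ := by
  classical
  obtain ⟨n, s, hs⟩ := Module.Finite.exists_fin (R := R) (M := V)
  have h1 : Module.length R (R ⧸ Ideal.span {a}) ≠ ⊤ := by
    rw [Module.length_ne_top_iff]
    exact isFiniteLength_quotient_span_singleton R (mem_nonZeroDivisors_of_ne_zero ha)
  let φ : (Fin n → R ⧸ Ideal.span {a}) →ₗ[R] V :=
    LinearMap.lsum R _ R (fun i => Submodule.liftQ _ (LinearMap.toSpanSingleton R V (s i))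
      (by
        intro r hr
        obtain ⟨t, rfl⟩ := Ideal.mem_span_singleton'.1 hr
        simp [mul_smul, h]))
  have hφ : Function.Surjective φ := by
    rw [← LinearMap.range_eq_top, eq_top_iff, ← hs, Submodule.span_le]
    rintro _ ⟨i, rfl⟩
    refine ⟨Pi.single i (Submodule.Quotient.mk 1), ?_⟩
    simp only [φ, LinearMap.lsum_apply, LinearMap.sum_apply, LinearMap.comp_apply,
      LinearMap.proj_apply]
    rw [Finset.sum_eq_single i]
    · rw [Pi.single_eq_same]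
      have := Submodule.liftQ_apply (Ideal.span {a}) (LinearMap.toSpanSingleton R V (s i))
        (h := by
          intro r hr
          obtain ⟨t, rfl⟩ := Ideal.mem_span_singleton'.1 hr
          simp [mul_smul, h]) 1
      rw [this]
      simp
    · intro j _ hj
      simp [Pi.single_eq_of_ne hj]
    · simp
  refine ne_top_of_le_ne_top ?_ (Module.length_le_of_surjective φ hφ)
  rw [Module.length_pi_of_fintype]
  simp only [Finset.sum_const, Finset.card_univ, Fintype.card_fin, nsmul_eq_mul]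
  exact WithTop.mul_ne_top (ENat.natCast_ne_top n) h1

end length

section eigen

variable {R : Type*} [CommRing R] {V : Type*} [AddCommGroup V] [Module R V]

/-- the eigenspace of `Y` for the eigenvalue `ω ^ k`. -/
def eig (Y : V →ₗ[R] V) (ω : R) (k : ℕ) : Submodule R V :=
  LinearMap.ker (Y - (ω ^ k) • LinearMap.id)

lemma mem_eig {Y : V →ₗ[R] V} {ω : R} {k : ℕ} {v : V} : v ∈ eig Y ω k ↔ Y v = ω ^ k • v := by
  simp [eig, sub_eq_zero]

/-- the sum map from the external direct sum of the eigenspaces. -/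
def sumMap (Y : V →ₗ[R] V) (ω : R) (n : ℕ) : (∀ k : Fin n, eig Y ω k) →ₗ[R] V :=
  ∑ k : Fin n, (eig Y ω k).subtype ∘ₗ LinearMap.proj k

@[simp] lemma sumMap_apply (Y : V →ₗ[R] V) (ω : R) (n : ℕ) (w : ∀ k : Fin n, eig Y ω k) :
    sumMap Y ω n w = ∑ k, (w k : V) := by
  simp [sumMap]

/-- `n` times the projection to the eigenspace of `ω ^ k`, where `θ = ω⁻¹`. -/
def proj (Y : V →ₗ[R] V) (θ : R) (n k : ℕ) : V →ₗ[R] V :=
  ∑ j ∈ Finset.range n, (θ ^ (k * j)) • Y ^ j

lemma proj_apply (Y : V →ₗ[R] V) (θ : R) (n k : ℕ) (v : V) :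
    proj Y θ n k v = ∑ j ∈ Finset.range n, (θ ^ (k * j)) • (Y ^ j) v := by
  simp [proj]

lemma geom_zero [IsDomain R] {t : R} {n : ℕ} (h1 : t ^ n = 1) (h2 : t ≠ 1) :
    ∑ j ∈ Finset.range n, t ^ j = 0 := by
  have h := geom_sum_mul t n
  rw [h1, sub_self] at h
  exact (mul_eq_zero.1 h).resolve_right (sub_ne_zero.2 h2)

variable {Y : V →ₗ[R] V} {ω θ : R} {n : ℕ}

lemma theta_pow (hω : IsPrimitiveRoot ω n) (hθ : θ * ω = 1) : θ ^ n = 1 := by
  have : (θ * ω) ^ n = 1 := by rw [hθ, one_pow]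
  rwa [mul_pow, hω.pow_eq_one, mul_one] at this

lemma proj_mem (hω : IsPrimitiveRoot ω n) (hθ : θ * ω = 1) (hY : Y ^ n = 1) (k : ℕ) (v : V) :
    proj Y θ n k v ∈ eig Y ω k := by
  rw [mem_eig, proj_apply, map_sum, Finset.smul_sum]
  let g : ℕ → V := fun j => (ω ^ k * θ ^ (k * j)) • (Y ^ j) v
  have hl : ∀ j, Y ((θ ^ (k * j)) • (Y ^ j) v) = g (j + 1) := by
    intro j
    simp only [g, map_smul]
    have e1 : (Y ^ (j + 1)) v = Y ((Y ^ j) v) := by rw [pow_succ']; rfl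
    have e2 : ω ^ k * θ ^ (k * (j + 1)) = θ ^ (k * j) := by
      have : ω ^ k * θ ^ (k * (j + 1)) = (θ * ω) ^ k * θ ^ (k * j) := by ring
      rw [this, hθ, one_pow, one_mul]
    rw [e1, e2]
  have hr : ∀ j, ω ^ k • (θ ^ (k * j)) • (Y ^ j) v = g j := by
    intro j; simp only [g, smul_smul]
  simp only [hl, hr]
  have h1 := Finset.sum_range_succ g n
  have h2 := Finset.sum_range_succ' g n
  have e3 : θ ^ (k * n) = 1 := by rw [mul_comm, pow_mul, theta_pow hω hθ, one_pow]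
  have h3 : g n = g 0 := by
    simp only [g, hY, e3, mul_zero, pow_zero]
  rw [h1, h3] at h2
  exact (add_right_cancel h2).symm

lemma sum_proj [IsDomain R] (hω : IsPrimitiveRoot ω n) (hθ : θ * ω = 1) (v : V) :
    ∑ k ∈ Finset.range n, proj Y θ n k v = (n : R) • v := by
  rcases Nat.eq_zero_or_pos n with rfl | hn
  · simp
  simp only [proj_apply]
  rw [Finset.sum_comm]
  simp only [← Finset.sum_smul]
  rw [Finset.sum_eq_single_of_mem 0 (Finset.mem_range.2 hn)]
  · simp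
  · intro j hj hj0
    have hne : θ ^ j ≠ 1 := by
      intro h
      have : ω ^ j = 1 := by
        have h2 : (θ * ω) ^ j = 1 := by rw [hθ, one_pow]
        rwa [mul_pow, h, one_mul] at h2
      exact absurd (Nat.le_of_dvd (Nat.pos_of_ne_zero hj0) (hω.dvd_of_pow_eq_one j this))
        (not_le.2 (Finset.mem_range.1 hj))
    have h1 : ∑ i ∈ Finset.range n, θ ^ (i * j) = 0 := by
      have h3 := geom_zero (t := θ ^ j) (n := n)
        (by rw [← pow_mul, mul_comm, pow_mul, theta_pow hω hθ, one_pow]) hne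
      rw [← h3]
      exact Finset.sum_congr rfl fun i _ => by rw [← pow_mul, mul_comm]
    rw [h1, zero_smul]

lemma proj_of_mem [IsDomain R] (hω : IsPrimitiveRoot ω n) (hθ : θ * ω = 1) {i k : ℕ}
    (hi : i < n) (hk : k < n) {w : V} (hw : w ∈ eig Y ω k) :
    proj Y θ n i w = if i = k then (n : R) • w else 0 := by
  have hpow : ∀ j, (Y ^ j) w = (ω ^ (k * j)) • w := by
    intro j
    induction j with
    | zero => simp
    | succ j ih =>
      have e1 : (Y ^ (j + 1)) w = Y ((Y ^ j) w) := by rw [pow_succ']; rfl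
      rw [e1, ih, map_smul, mem_eig.1 hw, smul_smul]
      ring_nf
  rw [proj_apply]
  have h1 : ∑ j ∈ Finset.range n, (θ ^ (i * j)) • (Y ^ j) w =
      (∑ j ∈ Finset.range n, (θ ^ i * ω ^ k) ^ j) • w := by
    rw [Finset.sum_smul]
    refine Finset.sum_congr rfl fun j _ => ?_
    rw [hpow, smul_smul, mul_pow, pow_mul, pow_mul]
  rw [h1]
  split_ifs with h
  · subst h
    have : θ ^ i * ω ^ i = 1 := by rw [← mul_pow, hθ, one_pow]
    rw [this]
    simp
  · rw [geom_zero, zero_smul]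
    · rw [mul_pow, ← pow_mul, ← pow_mul, mul_comm i, mul_comm k, pow_mul, pow_mul,
        theta_pow hω hθ, hω.pow_eq_one, one_pow, one_pow, one_mul]
    · intro h2
      apply h
      have h3 : ω ^ k = ω ^ i := by
        have : ω ^ i * (θ ^ i * ω ^ k) = ω ^ i := by rw [h2, mul_one]
        rwa [← mul_assoc, ← mul_pow, mul_comm ω θ, hθ, one_pow, one_mul] at this
      exact (hω.pow_inj hk hi h3).symm

/-- Eigenvectors for different eigenvalues are independent. -/
lemma eq_zero_of_sum_eq_zero [IsDomain R] [Module.IsTorsionFree R V] (hn : (n : R) ≠ 0)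
    (hω : IsPrimitiveRoot ω n) (hθ : θ * ω = 1) (w : Fin n → V)
    (hw : ∀ k : Fin n, w k ∈ eig Y ω k) (h : ∑ k, w k = 0) (i : Fin n) : w i = 0 := by
  have h1 : proj Y θ n i (∑ k, w k) = (n : R) • w i := by
    rw [map_sum, Finset.sum_eq_single i]
    · rw [proj_of_mem hω hθ i.2 i.2 (hw i), if_pos rfl]
    · intro k _ hk
      rw [proj_of_mem hω hθ i.2 k.2 (hw k), if_neg]
      exact fun h => hk (Fin.ext h.symm)
    · simp
  rw [h, map_zero] at h1
  exact (smul_eq_zero_iff_right hn).1 h1.symm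

lemma sumMap_injective [IsDomain R] [Module.IsTorsionFree R V] (hn : (n : R) ≠ 0)
    (hω : IsPrimitiveRoot ω n) (hθ : θ * ω = 1) : Function.Injective (sumMap Y ω n) := by
  rw [← LinearMap.ker_eq_bot, LinearMap.ker_eq_bot']
  intro w hw
  funext i
  apply Subtype.ext
  rw [sumMap_apply] at hw
  exact eq_zero_of_sum_eq_zero hn hω hθ (fun k => (w k : V)) (fun k => (w k).2) hw i

lemma smul_mem_range_sumMap [IsDomain R] (hω : IsPrimitiveRoot ω n) (hθ : θ * ω = 1)
    (hY : Y ^ n = 1) (v : V) : (n : R) • v ∈ LinearMap.range (sumMap Y ω n) := by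
  refine ⟨fun k => ⟨proj Y θ n k v, proj_mem hω hθ hY k v⟩, ?_⟩
  rw [sumMap_apply, ← sum_proj (Y := Y) hω hθ v, Finset.sum_range]

end eigen

section twisted

variable {R : Type*} [CommRing R] {V₁ V₂ : Type*} [AddCommGroup V₁] [Module R V₁]
  [AddCommGroup V₂] [Module R V₂]

/-- the map induced by `g` on the eigenspaces for the eigenvalue `ω ^ k`. -/
def eigMap {Y₁ : V₁ →ₗ[R] V₁} {Y₂ : V₂ →ₗ[R] V₂} (g : V₁ →ₗ[R] V₂)
    (hY : ∀ v, g (Y₁ v) = Y₂ (g v)) (ω : R) (k : ℕ) : eig Y₁ ω k →ₗ[R] eig Y₂ ω k :=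
  g.restrict (fun v hv => by
    rw [mem_eig] at hv ⊢
    rw [← hY, hv, map_smul])

/-- the map induced by `g` on the external direct sums of the eigenspaces. -/
def sumEigMap {Y₁ : V₁ →ₗ[R] V₁} {Y₂ : V₂ →ₗ[R] V₂} (g : V₁ →ₗ[R] V₂)
    (hY : ∀ v, g (Y₁ v) = Y₂ (g v)) (ω : R) (n : ℕ) :
    (∀ k : Fin n, eig Y₁ ω k) →ₗ[R] (∀ k : Fin n, eig Y₂ ω k) :=
  LinearMap.pi (fun k => eigMap g hY ω k ∘ₗ LinearMap.proj k)

lemma sumMap_comp {Y₁ : V₁ →ₗ[R] V₁} {Y₂ : V₂ →ₗ[R] V₂} (g : V₁ →ₗ[R] V₂)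
    (hY : ∀ v, g (Y₁ v) = Y₂ (g v)) (ω : R) (n : ℕ) :
    sumMap Y₂ ω n ∘ₗ sumEigMap g hY ω n = g ∘ₗ sumMap Y₁ ω n := by
  ext w
  simp [sumEigMap, eigMap]

lemma length_sumEigMap {Y₁ : V₁ →ₗ[R] V₁} {Y₂ : V₂ →ₗ[R] V₂} (g : V₁ →ₗ[R] V₂)
    (hY : ∀ v, g (Y₁ v) = Y₂ (g v)) (ω : R) (n : ℕ) :
    Module.length R ((∀ k : Fin n, eig Y₂ ω k) ⧸ LinearMap.range (sumEigMap g hY ω n)) =
      ∑ k ∈ Finset.range n,
        Module.length R (eig Y₂ ω k ⧸ LinearMap.range (eigMap g hY ω k)) := by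
  classical
  have h1 : LinearMap.range (sumEigMap g hY ω n) =
      Submodule.pi Set.univ (fun k : Fin n => LinearMap.range (eigMap g hY ω k)) := by
    ext w
    simp only [LinearMap.mem_range, Submodule.mem_pi, Set.mem_univ, true_implies]
    constructor
    · rintro ⟨v, rfl⟩ k
      exact ⟨v k, rfl⟩
    · intro h
      choose v hv using h
      exact ⟨v, funext hv⟩
  rw [h1, (Submodule.quotientPi _).length_eq, Module.length_pi_of_fintype, Finset.sum_range]

lemma mem_eig_shift {V : Type*} [AddCommGroup V] [Module R V] {ω θ : R} (hθ : θ * ω = 1)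
    {m : ℕ} (Y : V →ₗ[R] V) (X : V ≃ₗ[R] V) (h : ∀ v, Y (X v) = ω ^ m • X (Y v)) (k : ℕ)
    (v : V) : v ∈ eig Y ω k ↔ X v ∈ eig Y ω (k + m) := by
  rw [mem_eig, mem_eig, h, pow_add, mul_comm, mul_smul]
  constructor
  · intro hv
    rw [hv, map_smul]
  · intro hv
    have hu : ∀ a b : V, ω ^ m • a = ω ^ m • b → a = b := by
      intro a b hab
      have := congrArg (fun x => θ ^ m • x) hab
      simpa only [smul_smul, ← mul_pow, hθ, one_pow, one_smul] using this
    have h2 := hu _ _ hv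
    rw [← map_smul] at h2
    exact X.injective h2

/-- the shift between eigenspaces given by a twisted-commuting automorphism. -/
lemma length_shift {Y₁ : V₁ →ₗ[R] V₁} {Y₂ : V₂ →ₗ[R] V₂} (g : V₁ →ₗ[R] V₂)
    (hY : ∀ v, g (Y₁ v) = Y₂ (g v)) {ω θ : R} (hθ : θ * ω = 1) {m : ℕ}
    (X₁ : V₁ ≃ₗ[R] V₁) (X₂ : V₂ ≃ₗ[R] V₂) (hX : ∀ v, g (X₁ v) = X₂ (g v))
    (hYX₁ : ∀ v, Y₁ (X₁ v) = ω ^ m • X₁ (Y₁ v)) (hYX₂ : ∀ v, Y₂ (X₂ v) = ω ^ m • X₂ (Y₂ v))
    (k : ℕ) :
    Module.length R (eig Y₂ ω (k + m) ⧸ LinearMap.range (eigMap g hY ω (k + m))) =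
      Module.length R (eig Y₂ ω k ⧸ LinearMap.range (eigMap g hY ω k)) := by
  let e : eig Y₂ ω k ≃ₗ[R] eig Y₂ ω (k + m) :=
    LinearEquiv.ofSubmodules X₂ _ _ (by
      ext v
      constructor
      · rintro ⟨u, hu, rfl⟩
        exact (mem_eig_shift hθ Y₂ X₂ hYX₂ k u).1 hu
      · intro hv
        refine ⟨X₂.symm v, ?_, by simp⟩
        rw [SetLike.mem_coe, mem_eig_shift hθ Y₂ X₂ hYX₂]
        simpa using hv)
  have he : ∀ v, ((e v : eig Y₂ ω (k + m)) : V₂) = X₂ v := fun v => rfl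
  symm
  apply LinearEquiv.length_eq
  refine Submodule.Quotient.equiv _ _ e ?_
  ext w
  constructor
  · rintro ⟨_, ⟨v, rfl⟩, rfl⟩
    refine ⟨⟨X₁ v, (mem_eig_shift hθ Y₁ X₁ hYX₁ k v).1 v.2⟩, ?_⟩
    apply Subtype.ext
    change g (X₁ v) = X₂ (g v)
    exact hX v
  · rintro ⟨v, rfl⟩
    have hv : X₁.symm v ∈ eig Y₁ ω k := by
      rw [mem_eig_shift hθ Y₁ X₁ hYX₁]
      simpa using v.2
    refine ⟨eigMap g hY ω k ⟨X₁.symm v, hv⟩, ⟨_, rfl⟩, ?_⟩
    apply Subtype.ext
    change X₂ (g (X₁.symm v)) = g v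
    rw [← hX]
    simp

lemma sum_periodic (f : ℕ → ℕ∞) (p m : ℕ) (h : ∀ k, f (k + m) = f k) :
    ∑ k ∈ Finset.range (p * m), f k = p * ∑ k ∈ Finset.range m, f k := by
  induction p with
  | zero => simp
  | succ p ih =>
    have h1 : ∀ q k, f (q * m + k) = f k := by
      intro q k
      induction q with
      | zero => simp
      | succ q ihq =>
        rw [← ihq, ← h (q * m + k)]
        congr 1
        ring
    rw [Nat.add_mul, one_mul, Finset.sum_range_add, ih]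
    simp only [h1]
    push_cast
    ring

/-- For a map of twisted modules, the quotient of the sums of eigenspaces has length a multiple
of `p`. -/
lemma length_sumEigMap_eq_mul {Y₁ : V₁ →ₗ[R] V₁} {Y₂ : V₂ →ₗ[R] V₂} (g : V₁ →ₗ[R] V₂)
    (hY : ∀ v, g (Y₁ v) = Y₂ (g v)) {ω θ : R} (hθ : θ * ω = 1) (p m : ℕ)
    (X₁ : V₁ ≃ₗ[R] V₁) (X₂ : V₂ ≃ₗ[R] V₂) (hX : ∀ v, g (X₁ v) = X₂ (g v))
    (hYX₁ : ∀ v, Y₁ (X₁ v) = ω ^ m • X₁ (Y₁ v))
    (hYX₂ : ∀ v, Y₂ (X₂ v) = ω ^ m • X₂ (Y₂ v)) :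
    ∃ c : ℕ∞, Module.length R ((∀ k : Fin (p * m), eig Y₂ ω k) ⧸
      LinearMap.range (sumEigMap g hY ω (p * m))) = p * c := by
  rw [length_sumEigMap]
  exact ⟨_, sum_periodic _ p m (fun k => length_shift g hY hθ X₁ X₂ hX hYX₁ hYX₂ k)⟩

/-- the length of the quotient by the sum of the eigenspaces. -/
noncomputable def defect (R : Type*) [CommRing R] {V : Type*} [AddCommGroup V] [Module R V]
    (Y : V →ₗ[R] V) (ω : R) (n : ℕ) : ℕ∞ :=
  Module.length R (V ⧸ LinearMap.range (sumMap Y ω n))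

/-- Additivity of the defect modulo `p`. -/
lemma defect_add [IsDomain R] {V₃ : Type*} [AddCommGroup V₃] [Module R V₃]
    [Module.IsTorsionFree R V₃]
    {Y₁ : V₁ →ₗ[R] V₁} {Y₂ : V₂ →ₗ[R] V₂} {Y₃ : V₃ →ₗ[R] V₃} (f : V₁ →ₗ[R] V₂)
    (g : V₂ →ₗ[R] V₃) (hf : Function.Injective f) (hg : Function.Surjective g)
    (hfg : Function.Exact f g)
    (hfY : ∀ v, f (Y₁ v) = Y₂ (f v)) (hgY : ∀ v, g (Y₂ v) = Y₃ (g v)) {ω θ : R} {p m : ℕ}
    (hn : ((p * m : ℕ) : R) ≠ 0) (hω : IsPrimitiveRoot ω (p * m)) (hθ : θ * ω = 1)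
    (X₂ : V₂ ≃ₗ[R] V₂) (X₃ : V₃ ≃ₗ[R] V₃) (hX : ∀ v, g (X₂ v) = X₃ (g v))
    (hYX₂ : ∀ v, Y₂ (X₂ v) = ω ^ m • X₂ (Y₂ v))
    (hYX₃ : ∀ v, Y₃ (X₃ v) = ω ^ m • X₃ (Y₃ v)) :
    ∃ c : ℕ∞, defect R Y₂ ω (p * m) =
      defect R Y₁ ω (p * m) + defect R Y₃ ω (p * m) + p * c := by
  obtain ⟨c, hc⟩ := length_sumEigMap_eq_mul g hgY hθ p m X₂ X₃ hX hYX₂ hYX₃
  refine ⟨c, ?_⟩
  unfold defect
  rw [length_comap_map f g hg hfg (LinearMap.range (sumMap Y₂ ω (p * m)))]
  have h1 : (LinearMap.range (sumMap Y₂ ω (p * m))).comap f =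
      LinearMap.range (sumMap Y₁ ω (p * m)) := by
    ext v
    constructor
    · rintro ⟨w, hw⟩
      rw [sumMap_apply] at hw
      have h2 : ∑ k, g (w k) = 0 := by
        rw [← map_sum, hw]
        exact hfg.apply_apply_eq_zero v
      have h3 : ∀ k, g (w k) = 0 := by
        intro k
        refine eq_zero_of_sum_eq_zero (Y := Y₃) hn hω hθ (fun k => g (w k)) ?_ h2 k
        intro k
        have := (w k).2
        rw [mem_eig] at this ⊢
        rw [← hgY, this, map_smul]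
      have h4 : ∀ k, ∃ u : V₁, f u = w k := fun k => (hfg _).1 (h3 k)
      choose u hu using h4
      have h5 : ∀ k : Fin (p * m), u k ∈ eig Y₁ ω k := by
        intro k
        rw [mem_eig]
        apply hf
        rw [hfY, hu, map_smul, hu]
        exact mem_eig.1 (w k).2
      refine ⟨fun k => ⟨u k, h5 k⟩, ?_⟩
      apply hf
      rw [sumMap_apply, map_sum, ← hw]
      exact Finset.sum_congr rfl fun k _ => hu k
    · rintro ⟨w, rfl⟩
      refine ⟨sumEigMap f hfY ω (p * m) w, ?_⟩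
      exact LinearMap.congr_fun (sumMap_comp f hfY ω (p * m)) w
  have h2 : (LinearMap.range (sumMap Y₂ ω (p * m))).map g =
      (LinearMap.range (sumEigMap g hgY ω (p * m))).map (sumMap Y₃ ω (p * m)) := by
    rw [← LinearMap.range_comp, ← LinearMap.range_comp, sumMap_comp g hgY]
  rw [h1, h2, length_map_eq _ (sumMap_injective hn hω hθ), hc]
  ring

/-- Change of the defect when passing to a sublattice. -/
lemma defect_sub [IsDomain R] [Module.IsTorsionFree R V₂]
    {Y₁ : V₁ →ₗ[R] V₁} {Y₂ : V₂ →ₗ[R] V₂} (f : V₁ →ₗ[R] V₂)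
    (hf : Function.Injective f)
    (hfY : ∀ v, f (Y₁ v) = Y₂ (f v)) {ω θ : R} {p m : ℕ}
    (hn : ((p * m : ℕ) : R) ≠ 0) (hω : IsPrimitiveRoot ω (p * m)) (hθ : θ * ω = 1)
    (X₁ : V₁ ≃ₗ[R] V₁) (X₂ : V₂ ≃ₗ[R] V₂) (hX : ∀ v, f (X₁ v) = X₂ (f v))
    (hYX₁ : ∀ v, Y₁ (X₁ v) = ω ^ m • X₁ (Y₁ v))
    (hYX₂ : ∀ v, Y₂ (X₂ v) = ω ^ m • X₂ (Y₂ v)) :
    ∃ c : ℕ∞, defect R Y₁ ω (p * m) + Module.length R (V₂ ⧸ LinearMap.range f) =
      defect R Y₂ ω (p * m) + p * c := by
  obtain ⟨c, hc⟩ := length_sumEigMap_eq_mul f hfY hθ p m X₁ X₂ hX hYX₁ hYX₂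
  refine ⟨c, ?_⟩
  unfold defect
  rw [← length_map_eq f hf, ← hc, add_comm (Module.length R (V₂ ⧸ _)),
    ← length_map_eq _ (sumMap_injective hn hω hθ), ← LinearMap.range_comp,
    ← LinearMap.range_comp, sumMap_comp f hfY]

lemma defect_ne_top [IsDomain R] [IsDiscreteValuationRing R] {V : Type*} [AddCommGroup V]
    [Module R V] [Module.Finite R V] {Y : V →ₗ[R] V} {ω θ : R} {n : ℕ} (hn : (n : R) ≠ 0)
    (hω : IsPrimitiveRoot ω n) (hθ : θ * ω = 1) (hY : Y ^ n = 1) : defect R Y ω n ≠ ⊤ := by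
  refine length_ne_top_of_torsion (n : R) hn ?_
  intro v
  obtain ⟨v, rfl⟩ := Submodule.mkQ_surjective _ v
  rw [← map_smul, Submodule.mkQ_apply, Submodule.Quotient.mk_eq_zero]
  exact smul_mem_range_sumMap hω hθ hY v

end twisted

end Pool.Agent.H49Swan
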