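import Mathlib

/-!
A nonabelian finite `p`-group contains elements `x`, `y` with `y x = z x y`, where `z` is central
of order `p`.
-/

set_option autoImplicit false

namespace Pool.Agent.H49Swan

lemma exists_central_commutator {p : ℕ} [Fact p.Prime] {G : Type} [Group G] [Finite G]
    (hG : IsPGroup p G) (hnc : ∃ a b : G, a * b ≠ b * a) :
    ∃ x y z : G, z ∈ Subgroup.center G ∧ orderOf z = p ∧ y * x = z * (x * y) := by
  classical
  let Q := G ⧸ Subgroup.center G
  have hQ : IsPGroup p Q := hG.to_quotient _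
  have hQn : Nontrivial Q := by
    obtain ⟨a, b, hab⟩ := hnc
    refine ⟨⟨QuotientGroup.mk a, 1, ?_⟩⟩
    intro h
    rw [QuotientGroup.eq_one_iff] at h
    exact hab ((Subgroup.mem_center_iff.1 h b).symm)
  have hC : Nontrivial (Subgroup.center Q) := hQ.center_nontrivial
  have hCp : IsPGroup p (Subgroup.center Q) := hQ.to_subgroup _
  obtain ⟨n, hn, hcard⟩ := hCp.nontrivial_iff_card.1 hC
  obtain ⟨q, hq⟩ := exists_prime_orderOf_dvd_card' (G := Subgroup.center Q) p
    (by rw [hcard]; exact dvd_pow_self p hn.ne')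
  obtain ⟨x, hx⟩ := QuotientGroup.mk_surjective (q : Q)
  have hxc : x ∉ Subgroup.center G := by
    intro h
    rw [← QuotientGroup.eq_one_iff, hx] at h
    have h1 : q = 1 := Subtype.ext h
    rw [h1, orderOf_one] at hq
    exact (Fact.out : p.Prime).one_lt.ne hq
  have hxp : x ^ p ∈ Subgroup.center G := by
    rw [← QuotientGroup.eq_one_iff, QuotientGroup.mk_pow, hx]
    have h1 : q ^ p = 1 := by rw [← hq]; exact pow_orderOf_eq_one q
    exact_mod_cast congrArg Subtype.val h1
  have hxcomm : ∀ g : G, g * x * g⁻¹ * x⁻¹ ∈ Subgroup.center G := by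
    intro g
    rw [← QuotientGroup.eq_one_iff]
    have h1 := Subgroup.mem_center_iff.1 q.2 (QuotientGroup.mk g : Q)
    rw [← hx] at h1
    rw [QuotientGroup.mk_mul, QuotientGroup.mk_mul, QuotientGroup.mk_mul, QuotientGroup.mk_inv,
      QuotientGroup.mk_inv, h1]
    group
  obtain ⟨y, hy⟩ : ∃ y : G, y * x ≠ x * y := by
    by_contra hcon
    push Not at hcon
    exact hxc (Subgroup.mem_center_iff.2 hcon)
  let z := y * x * y⁻¹ * x⁻¹
  have hzc : z ∈ Subgroup.center G := hxcomm y
  have hrel : y * x = z * (x * y) := by simp only [z]; group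
  have hz1 : z ≠ 1 := by
    intro h
    apply hy
    rw [hrel, h, one_mul]
  have hpow : ∀ k : ℕ, y * x ^ k = z ^ k * (x ^ k * y) := by
    intro k
    induction k with
    | zero => simp
    | succ k ih =>
      have hzk : z ^ k ∈ Subgroup.center G := Subgroup.pow_mem _ hzc k
      calc y * x ^ (k + 1) = (y * x ^ k) * x := by rw [pow_succ, mul_assoc]
        _ = z ^ k * x ^ k * (y * x) := by rw [ih]; group
        _ = z ^ k * x ^ k * (z * (x * y)) := by rw [hrel]
        _ = z ^ k * (x ^ k * z) * (x * y) := by group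
        _ = z ^ k * (z * x ^ k) * (x * y) := by rw [Subgroup.mem_center_iff.1 hzc]
        _ = z ^ (k + 1) * (x ^ (k + 1) * y) := by group
  have hzp : z ^ p = 1 := by
    have h1 := hpow p
    rw [Subgroup.mem_center_iff.1 hxp y] at h1
    exact (right_eq_mul.1 h1)
  exact ⟨x, y, z, hzc, orderOf_eq_prime hzp hz1, hrel⟩

end Pool.Agent.H49Swan
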