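import Mathlib

/-!
The integral closure of `ℤ_[p]` in a finite extension of `ℚ_[p]` is a discrete valuation ring.
-/

set_option autoImplicit false

namespace Pool.Agent.H49Swan

section padic

variable (p : ℕ) [Fact p.Prime] (K : Type) [Field K] [Algebra ℚ_[p] K]
  [FiniteDimensional ℚ_[p] K] [Algebra ℤ_[p] K] [IsScalarTower ℤ_[p] ℚ_[p] K]

lemma isIntegral_iff_spectralNorm (x : K) :
    IsIntegral ℤ_[p] x ↔ spectralNorm ℚ_[p] K x ≤ 1 := by
  have hx : IsIntegral ℚ_[p] x := Algebra.IsIntegral.isIntegral x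
  have hmon : (minpoly ℚ_[p] x).Monic := minpoly.monic hx
  unfold spectralNorm
  rw [spectralValue_le_one_iff hmon]
  constructor
  · intro h n
    rw [minpoly.isIntegrallyClosed_eq_field_fractions' ℚ_[p] h, Polynomial.coeff_map]
    exact PadicInt.norm_le_one _
  · intro h
    have hl : minpoly ℚ_[p] x ∈ Polynomial.lifts (algebraMap ℤ_[p] ℚ_[p]) := by
      rw [Polynomial.lifts_iff_coeff_lifts]
      intro n
      exact ⟨⟨_, h n⟩, rfl⟩
    obtain ⟨q, hq, -, hqm⟩ := Polynomial.lifts_and_natDegree_eq_and_monic hl hmon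
    refine ⟨q, hqm, ?_⟩
    have h1 : Polynomial.aeval x (q.map (algebraMap ℤ_[p] ℚ_[p])) = 0 := by
      rw [hq, minpoly.aeval]
    rwa [Polynomial.aeval_map_algebraMap] at h1

lemma valuationRing_integralClosure : ValuationRing (integralClosure ℤ_[p] K) := by
  have hfrac : IsFractionRing (integralClosure ℤ_[p] K) K :=
    integralClosure.isFractionRing_of_finite_extension ℚ_[p] K
  rw [ValuationRing.iff_isInteger_or_isInteger (integralClosure ℤ_[p] K) K]
  intro x
  by_cases hx0 : x = 0
  · left
    exact ⟨0, by simp [hx0]⟩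
  have hmul : spectralNorm ℚ_[p] K x * spectralNorm ℚ_[p] K x⁻¹ = 1 := by
    rw [← spectralAlgNorm_def, ← spectralAlgNorm_def, ← spectralAlgNorm_mul,
      mul_inv_cancel₀ hx0, spectralAlgNorm_one]
  have hnn := spectralNorm_nonneg (K := ℚ_[p]) x
  rcases le_total (spectralNorm ℚ_[p] K x) 1 with h | h
  · left
    exact ⟨⟨x, (isIntegral_iff_spectralNorm p K x).2 h⟩, rfl⟩
  · right
    have h2 : spectralNorm ℚ_[p] K x⁻¹ ≤ 1 := by
      by_contra hcon
      push Not at hcon
      nlinarith [mul_lt_mul_of_pos_left hcon (lt_of_lt_of_le one_pos h)]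
    exact ⟨⟨x⁻¹, (isIntegral_iff_spectralNorm p K x⁻¹).2 h2⟩, rfl⟩

lemma p_not_unit_integralClosure : ¬ IsUnit (p : integralClosure ℤ_[p] K) := by
  intro h
  obtain ⟨u, hu⟩ := h.exists_right_inv
  have h1 : (p : K) * (u : K) = 1 := by
    have := congrArg (fun v : integralClosure ℤ_[p] K => (v : K)) hu
    simpa using this
  have h2 : (u : K) = algebraMap ℚ_[p] K ((p : ℚ_[p])⁻¹) := by
    rw [map_inv₀, map_natCast]
    exact eq_inv_of_mul_eq_one_right h1
  have h3 : IsIntegral ℤ_[p] (u : K) := u.2
  rw [isIntegral_iff_spectralNorm, h2, spectralNorm_extends, norm_inv, Padic.norm_p, inv_inv] at h3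
  have := (Fact.out : p.Prime).one_lt
  have h4 : (1 : ℝ) < p := by exact_mod_cast this
  linarith

theorem isDiscreteValuationRing_integralClosure :
    IsDiscreteValuationRing (integralClosure ℤ_[p] K) := by
  have h1 := valuationRing_integralClosure p K
  have h2 : IsDedekindDomain (integralClosure ℤ_[p] K) :=
    integralClosure.isDedekindDomain ℤ_[p] ℚ_[p] K
  have h3 : IsLocalRing (integralClosure ℤ_[p] K) := inferInstance
  have h4 : ¬ IsField (integralClosure ℤ_[p] K) := by
    intro h
    have hp0 : (p : integralClosure ℤ_[p] K) ≠ 0 := by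
      intro h0
      have h5 : (p : K) = 0 := by
        have := congrArg (fun v : integralClosure ℤ_[p] K => (v : K)) h0
        simpa using this
      have : CharZero K := charZero_of_injective_algebraMap (algebraMap ℚ_[p] K).injective
      exact (Fact.out : p.Prime).ne_zero (by exact_mod_cast h5)
    obtain ⟨b, hb⟩ := h.mul_inv_cancel hp0
    exact p_not_unit_integralClosure p K (IsUnit.of_mul_eq_one _ hb)
  exact ((IsDiscreteValuationRing.TFAE _ h4).out 0 1).2 h1

end padic

end Pool.Agent.H49Swan
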