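import Pool.Agent.H49Swan.Main
import Pool.Agent.H49Swan.PadicDVR
import Pool.Agent.H49Swan.PGroup
import Pool.Agent.H49Swan.Bridge

/-!
# Hopf orders without the Swan property

Let `K` be a finite extension of `ℚ_p` with valuation ring `R`, and let `G` be a non-abelian
finite `p`-group such that `K` contains a primitive root of unity of order the exponent of `G`.
We construct an `R`-Hopf order `Λ` in `K[G]` such that
`G₀^R(Λ) → G₀(K[G])`, `[M] ↦ [K ⊗ M]`, is not injective.

Outline.  Choose `x`, `y` in `G` with `y x = z x y` where `z` is central of order `p`, and let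
`e_i` (`i` in `ZMod p`) be the idempotents of `K[⟨z⟩]`.  Then `Λ = ∑ R[G] e_i` is a Hopf order.
For a `Λ`-lattice `N` let `N₁ = e_1 N`, on which `z` acts as a primitive `p`-th root of unity `ζ`.
The sum of the eigenspaces of `y` on `N₁` is direct and has finite index in `N₁`; the length of
the quotient, modulo `p`, is additive in short exact sequences because `x` permutes the
eigenspaces freely in orbits of length `p`.  For lattices `M₂ ≤ M₁` with `e_1` acting as the
identity and `M₁ / M₂` of length one this invariant differs by one, so `[M₁] ≠ [M₂]`, while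
`K ⊗ M₁ ≅ K ⊗ M₂`.  Such lattices exist because modulo the maximal ideal `Λ e_1` becomes the group
algebra of `G / ⟨z⟩`, which has a one-dimensional module.
-/

set_option autoImplicit false

namespace Pool.Agent.H49Swan

/-- The general form over a discrete valuation ring. -/
theorem general {p : ℕ} [Fact p.Prime] {R K : Type} [CommRing R] [IsDomain R]
    [IsDiscreteValuationRing R] [Field K] [Algebra R K] [IsFractionRing R K] [CharZero K]
    (hp : (p : R) ∈ IsLocalRing.maximalIdeal R) {G : Type} [Group G] [Finite G]
    (hG : IsPGroup p G) (hnc : ∃ a b : G, a * b ≠ b * a)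
    (hK : ∃ ω : K, IsPrimitiveRoot ω (Monoid.exponent G)) :
    ∃ (Λ : Subalgebra R (MonoidAlgebra K G)) (h : IsHopfOrder K Λ),
      ¬ Function.Injective h.toIsOrder.swanMap := by
  obtain ⟨x, y, z, hz, hzo, hxy⟩ := exists_central_commutator hG hnc
  have hdvd : p ∣ Monoid.exponent G := by
    rw [← hzo]
    exact Monoid.order_dvd_exponent z
  obtain ⟨m, hm⟩ := hdvd
  obtain ⟨ω, hω⟩ := hK
  have hexp : Monoid.exponent G ≠ 0 := Monoid.exponent_ne_zero_of_finite
  have hint : IsIntegral R ω :=
    ⟨Polynomial.X ^ Monoid.exponent G - 1, Polynomial.monic_X_pow_sub_C 1 hexp, by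
      simp [hω.pow_eq_one]⟩
  obtain ⟨ω', hω'⟩ := IsIntegrallyClosed.isIntegral_iff.1 hint
  have hinj : Function.Injective (algebraMap R K) := IsFractionRing.injective R K
  have hprim : IsPrimitiveRoot ω' (p * m) := by
    rw [← hm]
    rw [← hω'] at hω
    exact hω.of_map_of_injective hinj
  have hn : ((p * m : ℕ) : R) ≠ 0 := by
    intro h
    have h1 : ((p * m : ℕ) : K) = 0 := by rw [← map_natCast (algebraMap R K), h, map_zero]
    rw [← hm] at h1
    exact hexp (by exact_mod_cast h1)
  exact swan_fails hz hzo hxy hprim (by rw [← hm]; exact Monoid.pow_exponent_eq_one y) hp hn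

/-- The valuation ring `R` of `K` is isomorphic to the integral closure of `ℤ_p` in `K`. -/
lemma exists_ringEquiv (p : ℕ) [Fact p.Prime] (K : Type) [Field K] [Algebra ℤ_[p] K]
    (R : Type) [CommRing R] [Algebra R K] [IsIntegralClosure R ℤ_[p] K] :
    ∃ e : integralClosure ℤ_[p] K ≃+* R, ∀ x, algebraMap R K (e x) = x := by
  have hint : ∀ r : R, algebraMap R K r ∈ integralClosure ℤ_[p] K := fun r =>
    (IsIntegralClosure.isIntegral_iff (A := R)).2 ⟨r, rfl⟩
  let f : R →+* integralClosure ℤ_[p] K := (algebraMap R K).codRestrict _ hint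
  have hf : Function.Bijective f := by
    refine ⟨fun r s h => ?_, fun x => ?_⟩
    · exact IsIntegralClosure.algebraMap_injective R ℤ_[p] K (congrArg Subtype.val h)
    · obtain ⟨r, hr⟩ := (IsIntegralClosure.isIntegral_iff (A := R)).1 x.2
      exact ⟨r, Subtype.ext hr⟩
  refine ⟨(RingEquiv.ofBijective f hf).symm, fun x => ?_⟩
  exact congrArg Subtype.val ((RingEquiv.ofBijective f hf).apply_symm_apply x)

/-- **Main theorem.** For every prime `p`, every finite extension `K` of `ℚ_p` with valuation ring
`R` (the integral closure of `ℤ_p` in `K`) and every non-abelian finite `p`-group `G` such that `K`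
contains a primitive `e`-th root of unity, `e` the exponent of `G`, there is an `R`-Hopf order in
`K[G]` without the Swan property. -/
theorem exists_hopfOrder_not_swan (p : ℕ) [Fact p.Prime] (K : Type) [Field K] [Algebra ℚ_[p] K]
    [FiniteDimensional ℚ_[p] K] [Algebra ℤ_[p] K] [IsScalarTower ℤ_[p] ℚ_[p] K]
    (R : Type) [CommRing R] [Algebra R K] [IsIntegralClosure R ℤ_[p] K]
    (G : Type) [Group G] [Finite G] (hG : IsPGroup p G) (hnc : ∃ a b : G, a * b ≠ b * a)
    (hK : ∃ ω : K, IsPrimitiveRoot ω (Monoid.exponent G)) :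
    ∃ (Λ : Type) (_ : Ring Λ) (_ : Algebra R Λ) (j : Λ →+* MonoidAlgebra K G),
      IsHopfOrderIncl R K j ∧ SwanPropertyFails R j := by
  have h1 := isDiscreteValuationRing_integralClosure p K
  have h2 : CharZero K := charZero_of_injective_algebraMap (algebraMap ℚ_[p] K).injective
  obtain ⟨e, he⟩ := exists_ringEquiv p K R
  have h3 : IsDomain R := (IsIntegralClosure.algebraMap_injective R ℤ_[p] K).isDomain
  have h4 : IsDiscreteValuationRing R := IsDiscreteValuationRing.RingEquivClass.isDiscreteValuationRing e
  have h5 : (p : R) ∈ IsLocalRing.maximalIdeal R := by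
    rw [IsLocalRing.mem_maximalIdeal]
    intro h
    apply p_not_unit_integralClosure p K
    have := h.map e.symm
    rwa [map_natCast] at this
  have h6 : IsFractionRing R K := by
    let _ : Algebra ℤ_[p] R :=
      (e.toRingHom.comp (algebraMap ℤ_[p] (integralClosure ℤ_[p] K))).toAlgebra
    have _ : IsScalarTower ℤ_[p] R K := IsScalarTower.of_algebraMap_eq fun r =>
      (he (algebraMap ℤ_[p] (integralClosure ℤ_[p] K) r)).symm
    exact IsIntegralClosure.isFractionRing_of_finite_extension ℤ_[p] ℚ_[p] K R
  obtain ⟨Λ, h, hΛ⟩ := general h5 hG hnc hK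
  exact ⟨Λ, inferInstance, inferInstance, _, isHopfOrderIncl_val h,
    swanPropertyFails_of h.toIsOrder hΛ⟩

end Pool.Agent.H49Swan
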