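import Mathlib

/-!
Grothendieck groups of finitely generated modules and of lattices.
-/

set_option autoImplicit false

namespace Pool.Agent.H49Swan

/-- There is a short exact sequence `0 → L → M → N → 0` of left `A`-modules. -/
def HasShortExact (A L M N : Type) [Ring A] [AddCommGroup L] [AddCommGroup M] [AddCommGroup N]
    [Module A L] [Module A M] [Module A N] : Prop :=
  ∃ (f : L →ₗ[A] M) (g : M →ₗ[A] N),
    Function.Injective f ∧ Function.Exact f g ∧ Function.Surjective g

/-! ### The Grothendieck group of finitely generated modules over a ring -/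

/-- A finitely generated left module over the ring `A`. -/
structure FGMod (A : Type) [Ring A] where
  carrier : Type
  [addCommGroup : AddCommGroup carrier]
  [module : Module A carrier]
  [finite : Module.Finite A carrier]

attribute [instance] FGMod.addCommGroup FGMod.module FGMod.finite

/-- The relations `[M] = [L] + [N]`, one for each short exact sequence `0 → L → M → N → 0` of
finitely generated `A`-modules. -/
def FGMod.relations (A : Type) [Ring A] : Set (FreeAbelianGroup (FGMod A)) :=
  {r | ∃ L M N : FGMod A, HasShortExact A L.carrier M.carrier N.carrier ∧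
    r = FreeAbelianGroup.of M - FreeAbelianGroup.of L - FreeAbelianGroup.of N}

/-- `G₀(A)`: the Grothendieck group of finitely generated `A`-modules. -/
abbrev G0 (A : Type) [Ring A] : Type 1 :=
  FreeAbelianGroup (FGMod A) ⧸ AddSubgroup.closure (FGMod.relations A)

/-- The class `[M]` in `G₀(A)`. -/
def G0.cls {A : Type} [Ring A] (M : FGMod A) : G0 A :=
  QuotientAddGroup.mk (FreeAbelianGroup.of M)

/-! ### The Grothendieck group of lattices over an `R`-algebra -/

/-- A `Λ`-lattice: a finitely generated left `Λ`-module which is free as an `R`-module. -/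
structure LatticeMod (R Λ : Type) [CommRing R] [Ring Λ] [Algebra R Λ] where
  carrier : Type
  [addCommGroup : AddCommGroup carrier]
  [module : Module Λ carrier]
  [moduleBase : Module R carrier]
  [isScalarTower : IsScalarTower R Λ carrier]
  [finite : Module.Finite Λ carrier]
  [free : Module.Free R carrier]

attribute [instance] LatticeMod.addCommGroup LatticeMod.module LatticeMod.moduleBase
  LatticeMod.isScalarTower LatticeMod.finite LatticeMod.free

/-- The relations `[M] = [L] + [N]`, one for each short exact sequence `0 → L → M → N → 0` of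
`Λ`-lattices. -/
def LatticeMod.relations (R Λ : Type) [CommRing R] [Ring Λ] [Algebra R Λ] :
    Set (FreeAbelianGroup (LatticeMod R Λ)) :=
  {r | ∃ L M N : LatticeMod R Λ, HasShortExact Λ L.carrier M.carrier N.carrier ∧
    r = FreeAbelianGroup.of M - FreeAbelianGroup.of L - FreeAbelianGroup.of N}

/-- `G₀^R(Λ)`: the Grothendieck group of `Λ`-lattices. -/
abbrev G0R (R Λ : Type) [CommRing R] [Ring Λ] [Algebra R Λ] : Type 1 :=
  FreeAbelianGroup (LatticeMod R Λ) ⧸ AddSubgroup.closure (LatticeMod.relations R Λ)

/-- The class `[M]` in `G₀^R(Λ)`. -/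
def G0R.cls {R Λ : Type} [CommRing R] [Ring Λ] [Algebra R Λ] (M : LatticeMod R Λ) : G0R R Λ :=
  QuotientAddGroup.mk (FreeAbelianGroup.of M)

end Pool.Agent.H49Swan
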