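import Mathlib

/-!
The idempotents attached to a multiplicative family `c : ZMod p → A` of elements of an algebra
over a field containing a primitive `p`-th root of unity.
-/

set_option autoImplicit false

namespace Pool.Agent.H49Swan

section idem

variable {p : ℕ} [Fact p.Prime] {K A : Type*} [Field K] [Ring A] [Algebra K A]

/-- `e i = p⁻¹ ∑ j, ψ (-(i * j)) • c j`. -/
noncomputable def idem (ψ : AddChar (ZMod p) K) (c : ZMod p → A) (i : ZMod p) : A :=
  (p : K)⁻¹ • ∑ j, ψ (-(i * j)) • c j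

variable {ψ : AddChar (ZMod p) K} {c : ZMod p → A}

lemma sum_psi (hψ : ψ.IsPrimitive) (b : ZMod p) :
    ∑ x : ZMod p, ψ (x * b) = if b = 0 then (p : K) else 0 := by
  classical
  have := AddChar.sum_mulShift b hψ
  rw [ZMod.card] at this
  rw [this]
  split_ifs <;> simp

lemma eq_sum_idem (hp : (p : K) ≠ 0) (hψ : ψ.IsPrimitive) (j : ZMod p) :
    c j = ∑ i, ψ (i * j) • idem ψ c i := by
  classical
  have h1 : ∀ i, ψ (i * j) • idem ψ c i = (p : K)⁻¹ • ∑ l, ψ (i * (j - l)) • c l := by
    intro i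
    rw [idem, smul_comm, Finset.smul_sum]
    congr 1
    refine Finset.sum_congr rfl fun l _ => ?_
    rw [smul_smul, ← AddChar.map_add_eq_mul]
    congr 2
    ring
  simp only [h1]
  rw [← Finset.smul_sum, Finset.sum_comm]
  simp only [← Finset.sum_smul]
  simp only [sum_psi hψ, sub_eq_zero]
  rw [Finset.sum_eq_single j]
  · simp [hp]
  · intro l _ hl
    rw [if_neg (Ne.symm hl), zero_smul]
  · simp

lemma c_mul_idem (hc : ∀ i j, c (i + j) = c i * c j) (i j : ZMod p) :
    c j * idem ψ c i = ψ (i * j) • idem ψ c i := by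
  have h1 : c j * idem ψ c i = (p : K)⁻¹ • ∑ l, ψ (-(i * l)) • c (j + l) := by
    rw [idem, Algebra.mul_smul_comm, Finset.mul_sum]
    congr 1
    exact Finset.sum_congr rfl fun l _ => by rw [Algebra.mul_smul_comm, ← hc]
  have h2 : ψ (i * j) • idem ψ c i =
      (p : K)⁻¹ • ∑ l, (ψ (i * j) * ψ (-(i * l))) • c l := by
    rw [idem, smul_comm, Finset.smul_sum]
    simp only [smul_smul]
  rw [h1, h2, ← Equiv.sum_comp (Equiv.addLeft j) (fun l => (ψ (i * j) * ψ (-(i * l))) • c l)]
  congr 1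
  refine Finset.sum_congr rfl fun l _ => ?_
  rw [← AddChar.map_add_eq_mul, Equiv.coe_addLeft]
  congr 2
  ring

lemma idem_mul_idem (hp : (p : K) ≠ 0) (hψ : ψ.IsPrimitive)
    (hc : ∀ i j, c (i + j) = c i * c j) (i k : ZMod p) :
    idem ψ c i * idem ψ c k = if i = k then idem ψ c k else 0 := by
  classical
  have h1 : idem ψ c i * idem ψ c k =
      (p : K)⁻¹ • (∑ j, ψ (j * (k - i))) • idem ψ c k := by
    conv_lhs => rw [idem]
    rw [Algebra.smul_mul_assoc, Finset.sum_mul, Finset.sum_smul]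
    congr 1
    refine Finset.sum_congr rfl fun j _ => ?_
    rw [Algebra.smul_mul_assoc, c_mul_idem hc, smul_smul, ← AddChar.map_add_eq_mul]
    congr 2
    ring
  rw [h1, sum_psi hψ]
  simp only [sub_eq_zero]
  by_cases h : k = i
  · subst h
    simp [hp]
  · rw [if_neg h, if_neg (Ne.symm h)]
    simp

lemma sum_idem (hp : (p : K) ≠ 0) (hψ : ψ.IsPrimitive) (hc0 : c 0 = 1) :
    ∑ i, idem ψ c i = 1 := by
  have := eq_sum_idem (c := c) hp hψ 0
  rw [hc0] at this
  rw [this]
  exact Finset.sum_congr rfl fun i _ => by simp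

end idem

end Pool.Agent.H49Swan
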