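import Pool.Agent.H49Swan.Defs
import Pool.Agent.H49Swan.Idem

/-!
The Hopf order `∑ R[G] e_i` in `K[G]`, where the `e_i` are the idempotents of a central
subgroup of order `p`.
-/

set_option autoImplicit false

open scoped TensorProduct

namespace Pool.Agent.H49Swan

section order

variable {p : ℕ} [Fact p.Prime] {R K G : Type} [CommRing R] [Field K] [Algebra R K] [Group G]

/-- the powers of `z` in the group algebra, indexed by `ZMod p`. -/
noncomputable def cz (p : ℕ) (K : Type) {G : Type} [Field K] [Group G] (z : G) (j : ZMod p) :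
    MonoidAlgebra K G :=
  MonoidAlgebra.single (z ^ j.val) 1

lemma cz_zero (z : G) : cz p K z 0 = 1 := by
  simp [cz, MonoidAlgebra.one_def]

lemma cz_add {z : G} (hz : z ^ p = 1) (i j : ZMod p) :
    cz p K z (i + j) = cz p K z i * cz p K z j := by
  simp only [cz, MonoidAlgebra.single_mul_single, one_mul]
  rw [ZMod.val_add, ← pow_add, ← pow_eq_pow_mod _ hz]

lemma commute_cz {z : G} (hz : z ∈ Subgroup.center G) (j : ZMod p) (a : MonoidAlgebra K G) :
    Commute (cz p K z j) a := by
  induction a using MonoidAlgebra.induction_on with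
  | of g =>
    have h : z ^ j.val ∈ Subgroup.center G := Subgroup.pow_mem _ hz _
    simp only [cz, MonoidAlgebra.of_apply, Commute, SemiconjBy,
      MonoidAlgebra.single_mul_single, one_mul]
    rw [Subgroup.mem_center_iff.1 h g]
  | add a b ha hb => exact ha.add_right hb
  | smul r a ha => exact ha.smul_right r

lemma commute_idem {z : G} (hz : z ∈ Subgroup.center G) (ψ : AddChar (ZMod p) K) (i : ZMod p)
    (a : MonoidAlgebra K G) : Commute (idem ψ (cz p K z) i) a := by
  unfold idem
  exact (Commute.sum_left _ _ _ fun j _ => (commute_cz hz j a).smul_left _).smul_left _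

/-- the spanning elements `g e_i`. -/
noncomputable def gen (ψ : AddChar (ZMod p) K) (z : G) (q : G × ZMod p) : MonoidAlgebra K G :=
  MonoidAlgebra.single q.1 1 * idem ψ (cz p K z) q.2

lemma gen_mul_gen {z : G} (hz : z ∈ Subgroup.center G) (hzp : z ^ p = 1) (hp : (p : K) ≠ 0)
    {ψ : AddChar (ZMod p) K} (hψ : ψ.IsPrimitive) (q r : G × ZMod p) :
    gen ψ z q * gen ψ z r = if q.2 = r.2 then gen ψ z (q.1 * r.1, r.2) else 0 := by
  unfold gen
  rw [mul_assoc, ← mul_assoc (idem ψ (cz p K z) q.2), (commute_idem hz ψ q.2 _).eq, mul_assoc,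
    idem_mul_idem hp hψ (cz_add hzp), ← mul_assoc, MonoidAlgebra.single_mul_single, one_mul]
  split_ifs <;> simp

/-- The `R`-module spanned by the elements `g e_i`. -/
noncomputable def ordModule (R : Type) [CommRing R] [Algebra R K] (ψ : AddChar (ZMod p) K)
    (z : G) : Submodule R (MonoidAlgebra K G) :=
  Submodule.span R (Set.range (gen ψ z))

lemma single_mem_ordModule {z : G} (hp : (p : K) ≠ 0)
    {ψ : AddChar (ZMod p) K} (hψ : ψ.IsPrimitive) (g : G) :
    MonoidAlgebra.single g 1 ∈ ordModule R ψ z := by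
  have h : (MonoidAlgebra.single g 1 : MonoidAlgebra K G) = ∑ i, gen ψ z (g, i) := by
    simp only [gen]
    rw [← Finset.mul_sum, sum_idem hp hψ (cz_zero z), mul_one]
  rw [h]
  exact Submodule.sum_mem _ fun i _ => Submodule.subset_span ⟨(g, i), rfl⟩

/-- The order `∑ R[G] e_i`. -/
noncomputable def ord (R : Type) [CommRing R] [Algebra R K] {z : G}
    (hz : z ∈ Subgroup.center G) (hzp : z ^ p = 1) (hp : (p : K) ≠ 0)
    {ψ : AddChar (ZMod p) K} (hψ : ψ.IsPrimitive) : Subalgebra R (MonoidAlgebra K G) :=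
  (ordModule R ψ z).toSubalgebra (by
    rw [MonoidAlgebra.one_def]
    exact single_mem_ordModule hp hψ 1) (by
    intro x y hx hy
    have h : ordModule R ψ z * ordModule R ψ z ≤ ordModule R ψ z := by
      unfold ordModule
      rw [Submodule.span_mul_span, Submodule.span_le]
      rintro _ ⟨_, ⟨q, rfl⟩, _, ⟨r, rfl⟩, rfl⟩
      simp only [gen_mul_gen hz hzp hp hψ]
      split_ifs
      · exact Submodule.subset_span ⟨_, rfl⟩
      · exact Submodule.zero_mem _
    exact h (Submodule.mul_mem_mul hx hy))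

lemma mem_ord {z : G} {hz : z ∈ Subgroup.center G} {hzp : z ^ p = 1} {hp : (p : K) ≠ 0}
    {ψ : AddChar (ZMod p) K} {hψ : ψ.IsPrimitive} {a : MonoidAlgebra K G} :
    a ∈ ord R hz hzp hp hψ ↔ a ∈ ordModule R ψ z := Iff.rfl

lemma comul_single_one (g : G) :
    Coalgebra.comul (R := K) (MonoidAlgebra.single g 1 : MonoidAlgebra K G) =
      MonoidAlgebra.single g 1 ⊗ₜ[K] MonoidAlgebra.single g 1 := by
  simp [Algebra.TensorProduct.one_def]

lemma comul_idem {z : G} (hp : (p : K) ≠ 0)
    {ψ : AddChar (ZMod p) K} (hψ : ψ.IsPrimitive) (i : ZMod p) :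
    Coalgebra.comul (R := K) (idem ψ (cz p K z) i) =
      ∑ a, ∑ b, if a + b = i then idem ψ (cz p K z) a ⊗ₜ[K] idem ψ (cz p K z) b else 0 := by
  have h1 : ∀ j, Coalgebra.comul (R := K) (cz p K z j) = ∑ a, ∑ b,
      (ψ (a * j) * ψ (b * j)) • (idem ψ (cz p K z) a ⊗ₜ[K] idem ψ (cz p K z) b) := by
    intro j
    have h2 : Coalgebra.comul (R := K) (cz p K z j) = cz p K z j ⊗ₜ[K] cz p K z j :=
      comul_single_one _
    rw [h2]
    conv_lhs => rw [eq_sum_idem (c := cz p K z) hp hψ j]
    simp only [TensorProduct.sum_tmul, TensorProduct.tmul_sum, TensorProduct.smul_tmul_smul]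
    rw [Finset.sum_comm]
  conv_lhs => rw [idem]
  rw [map_smul, map_sum]
  simp only [map_smul, h1, Finset.smul_sum]
  rw [Finset.sum_comm]
  refine Finset.sum_congr rfl fun a _ => ?_
  rw [Finset.sum_comm]
  refine Finset.sum_congr rfl fun b _ => ?_
  simp only [smul_smul]
  rw [← Finset.sum_smul]
  have h3 : ∑ j : ZMod p, (p : K)⁻¹ * (ψ (-(i * j)) * (ψ (a * j) * ψ (b * j))) =
      if a + b = i then 1 else 0 := by
    rw [← Finset.mul_sum]
    have h4 : ∀ j : ZMod p, ψ (-(i * j)) * (ψ (a * j) * ψ (b * j)) = ψ (j * (a + b - i)) := by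
      intro j
      rw [← AddChar.map_add_eq_mul, ← AddChar.map_add_eq_mul]
      congr 1
      ring
    simp only [h4, sum_psi hψ, sub_eq_zero]
    split_ifs
    · exact inv_mul_cancel₀ hp
    · exact mul_zero _
  rw [h3]
  split_ifs <;> simp

lemma comul_gen {z : G} (hp : (p : K) ≠ 0)
    {ψ : AddChar (ZMod p) K} (hψ : ψ.IsPrimitive) (g : G) (i : ZMod p) :
    Coalgebra.comul (R := K) (gen ψ z (g, i)) =
      ∑ a, ∑ b, if a + b = i then gen ψ z (g, a) ⊗ₜ[K] gen ψ z (g, b) else 0 := by
  simp only [gen]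
  rw [Bialgebra.comul_mul, comul_single_one, comul_idem hp hψ, Finset.mul_sum]
  refine Finset.sum_congr rfl fun a _ => ?_
  rw [Finset.mul_sum]
  refine Finset.sum_congr rfl fun b _ => ?_
  split_ifs
  · rw [Algebra.TensorProduct.tmul_mul_tmul]
  · rw [mul_zero]

lemma counit_gen (z : G) (hp : (p : K) ≠ 0)
    {ψ : AddChar (ZMod p) K} (hψ : ψ.IsPrimitive) (g : G) (i : ZMod p) :
    Coalgebra.counit (R := K) (gen ψ z (g, i)) = if i = 0 then (1 : K) else 0 := by
  simp only [gen, idem]
  rw [Bialgebra.counit_mul, map_smul, map_sum]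
  simp only [map_smul, cz, MonoidAlgebra.counit_single, CommSemiring.counit_apply, smul_eq_mul,
    mul_one, one_mul]
  have h : ∀ j : ZMod p, ψ (-(i * j)) = ψ (j * (-i)) := fun j => by congr 1; ring
  simp only [h, sum_psi hψ, neg_eq_zero]
  split_ifs
  · exact inv_mul_cancel₀ hp
  · exact mul_zero _

lemma gen_eq (ψ : AddChar (ZMod p) K) (z g : G) (i : ZMod p) :
    gen ψ z (g, i) =
      (p : K)⁻¹ • ∑ j, ψ (-(i * j)) • MonoidAlgebra.single (g * z ^ j.val) (1 : K) := by
  simp only [gen, idem]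
  rw [Algebra.mul_smul_comm, Finset.mul_sum]
  congr 1
  refine Finset.sum_congr rfl fun j _ => ?_
  rw [Algebra.mul_smul_comm, cz, MonoidAlgebra.single_mul_single, one_mul]

lemma pow_neg_val {z : G} (hzp : z ^ p = 1) (j : ZMod p) : z ^ (-j).val = (z ^ j.val)⁻¹ := by
  rw [eq_inv_iff_mul_eq_one, ← pow_add]
  have h : (-j).val + j.val ≡ 0 [MOD p] := by
    rw [← ZMod.natCast_eq_natCast_iff]
    push_cast
    rw [ZMod.natCast_zmod_val, ZMod.natCast_zmod_val]
    ring
  rw [pow_eq_pow_mod _ hzp, h, Nat.zero_mod, pow_zero]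

lemma antipode_gen {z : G} (hz : z ∈ Subgroup.center G) (hzp : z ^ p = 1)
    {ψ : AddChar (ZMod p) K} (g : G) (i : ZMod p) :
    HopfAlgebra.antipode K (gen ψ z (g, i)) = gen ψ z (g⁻¹, -i) := by
  rw [gen_eq, gen_eq, map_smul, map_sum]
  congr 1
  rw [← Equiv.sum_comp (Equiv.neg (ZMod p))]
  refine Finset.sum_congr rfl fun j _ => ?_
  rw [map_smul, MonoidAlgebra.antipode_single, CommSemiring.antipode_eq_id, LinearMap.id_apply,
    Equiv.neg_apply, pow_neg_val hzp]
  congr 2
  · ring
  · have h : z ^ j.val ∈ Subgroup.center G := Subgroup.pow_mem _ hz _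
    rw [mul_inv_rev, inv_inv, Subgroup.mem_center_iff.1 h g⁻¹]

/-- `∑ R[G] e_i` is a Hopf order. -/
lemma isHopfOrder_ord [Finite G] {z : G} (hz : z ∈ Subgroup.center G) (hzp : z ^ p = 1)
    (hp : (p : K) ≠ 0) {ψ : AddChar (ZMod p) K} (hψ : ψ.IsPrimitive) :
    IsHopfOrder K (ord R hz hzp hp hψ) := by
  have hsmul : ∀ (r : R) {V W : Type} [AddCommGroup V] [AddCommGroup W] [Module R V]
      [Module R W] [Module K V] [Module K W] [IsScalarTower R K V] [IsScalarTower R K W]
      (f : V →ₗ[K] W) (v : V), f (r • v) = r • f v := by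
    intro r V W _ _ _ _ _ _ _ _ f v
    rw [← algebraMap_smul K r v, map_smul, algebraMap_smul]
  refine ⟨⟨?_, ?_⟩, ?_, ?_, ?_⟩
  · have h : (ordModule R ψ z).FG := Submodule.fg_span (Set.finite_range _)
    exact Module.Finite.iff_fg.2 h
  · rw [eq_top_iff]
    intro a _
    induction a using MonoidAlgebra.induction_on with
    | of g => exact Submodule.subset_span (single_mem_ordModule hp hψ g)
    | add a b ha hb => exact Submodule.add_mem _ (ha trivial) (hb trivial)
    | smul r a ha => exact Submodule.smul_mem _ r (ha trivial)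
  · intro a ha
    rw [mem_ord] at ha
    induction ha using Submodule.span_induction with
    | mem x hx =>
      obtain ⟨⟨g, i⟩, rfl⟩ := hx
      rw [comul_gen hp hψ]
      refine Submodule.sum_mem _ fun a _ => Submodule.sum_mem _ fun b _ => ?_
      split_ifs
      · exact Submodule.subset_span
          ⟨_, Submodule.subset_span ⟨_, rfl⟩, _, Submodule.subset_span ⟨_, rfl⟩, rfl⟩
      · exact Submodule.zero_mem _
    | zero => rw [map_zero]; exact Submodule.zero_mem _
    | add x y _ _ hx hy => rw [map_add]; exact Submodule.add_mem _ hx hy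
    | smul r x _ hx => rw [hsmul]; exact Submodule.smul_mem _ r hx
  · intro a ha
    rw [mem_ord] at ha
    induction ha using Submodule.span_induction with
    | mem x hx =>
      obtain ⟨⟨g, i⟩, rfl⟩ := hx
      rw [counit_gen z hp hψ]
      split_ifs
      · exact one_mem _
      · exact zero_mem _
    | zero => rw [map_zero]; exact zero_mem _
    | add x y _ _ hx hy => rw [map_add]; exact add_mem hx hy
    | smul r x _ hx =>
      rw [hsmul, Algebra.smul_def]
      exact mul_mem ⟨r, rfl⟩ hx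
  · intro a ha
    rw [mem_ord] at ha ⊢
    induction ha using Submodule.span_induction with
    | mem x hx =>
      obtain ⟨⟨g, i⟩, rfl⟩ := hx
      rw [antipode_gen hz hzp]
      exact Submodule.subset_span ⟨_, rfl⟩
    | zero => rw [map_zero]; exact Submodule.zero_mem _
    | add x y _ _ hx hy => rw [map_add]; exact Submodule.add_mem _ hx hy
    | smul r x _ hx => rw [hsmul]; exact Submodule.smul_mem _ r hx

end order

end Pool.Agent.H49Swan
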