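import Pool.Agent.H49Swan.Defs
import Pool.Agent.H49Swan.Eigen

/-!
An invariant `G₀^R(Λ) → ZMod p` attached to a central idempotent `e`, a unit `X` and an element
`Y` of `Λ` with `Y ^ (p m) = 1` and `Y X e = ω ^ m X Y e`.
-/

set_option autoImplicit false

namespace Pool.Agent.H49Swan

/-- The data needed to define the invariant. -/
structure TwistData (R Λ : Type) [CommRing R] [Ring Λ] [Algebra R Λ] (p m : ℕ) (ω : R) where
  e : Λ
  X : Λˣ
  Y : Λ
  idem : e * e = e
  comm : ∀ a : Λ, e * a = a * e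
  pow : Y ^ (p * m) = 1
  rel : Y * X * e = ω ^ m • (X * Y * e)

namespace TwistData

variable {R Λ : Type} [CommRing R] [Ring Λ] [Algebra R Λ] {p m : ℕ} {ω : R}
  (D : TwistData R Λ p m ω)

/-- the part of a module on which `e` acts as the identity. -/
def part (N : Type) [AddCommGroup N] [Module Λ N] [Module R N] [IsScalarTower R Λ N] :
    Submodule R N where
  carrier := {v | D.e • v = v}
  add_mem' := by
    intro a b ha hb
    simp only [Set.mem_ofPred_eq] at *
    rw [smul_add, ha, hb]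
  zero_mem' := by simp
  smul_mem' := by
    intro r a ha
    simp only [Set.mem_ofPred_eq] at *
    rw [smul_algebra_smul_comm, ha]

variable (N : Type) [AddCommGroup N] [Module Λ N] [Module R N] [IsScalarTower R Λ N]

lemma mem_part {v : N} : v ∈ D.part N ↔ D.e • v = v := Iff.rfl

lemma smul_mem_part (a : Λ) {v : N} (hv : v ∈ D.part N) : a • v ∈ D.part N := by
  rw [mem_part] at *
  rw [← mul_smul, D.comm, mul_smul, hv]

/-- the action of an element of `Λ` on the part of a module. -/
def act (a : Λ) : D.part N →ₗ[R] D.part N where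
  toFun v := ⟨a • (v : N), D.smul_mem_part N a v.2⟩
  map_add' v w := by ext; simp
  map_smul' r v := by
    ext
    simp [smul_algebra_smul_comm]

@[simp] lemma act_coe (a : Λ) (v : D.part N) : (D.act N a v : N) = a • (v : N) := rfl

lemma act_pow (a : Λ) (k : ℕ) : D.act N a ^ k = D.act N (a ^ k) := by
  induction k with
  | zero => ext v; simp
  | succ k ih =>
    rw [pow_succ, ih]
    ext v
    simp [pow_succ, mul_smul]

/-- the automorphism of the part given by `X`. -/
def xEquiv : D.part N ≃ₗ[R] D.part N :=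
  LinearEquiv.ofLinearMap (D.act N D.X) (D.act N ((D.X⁻¹ : Λˣ) : Λ))
    (by ext v; simp [← mul_smul]) (by ext v; simp [← mul_smul])

@[simp] lemma xEquiv_coe (v : D.part N) : (D.xEquiv N v : N) = (D.X : Λ) • (v : N) := rfl

lemma act_xEquiv (v : D.part N) :
    D.act N D.Y (D.xEquiv N v) = ω ^ m • D.xEquiv N (D.act N D.Y v) := by
  ext
  have hv : D.e • (v : N) = v := v.2
  rw [act_coe, xEquiv_coe, Submodule.coe_smul, xEquiv_coe, act_coe, ← mul_smul, ← mul_smul]
  calc (D.Y * (D.X : Λ)) • (v : N) = (D.Y * (D.X : Λ) * D.e) • (v : N) := by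
        rw [mul_smul _ D.e, hv]
    _ = ω ^ m • ((D.X : Λ) * D.Y * D.e) • (v : N) := by rw [D.rel, smul_assoc]
    _ = ω ^ m • ((D.X : Λ) * D.Y) • (v : N) := by rw [mul_smul _ D.e, hv]

variable {N} {N' : Type} [AddCommGroup N'] [Module Λ N'] [Module R N'] [IsScalarTower R Λ N']

/-- a map of `Λ`-modules restricted to the parts. -/
def partMap (f : N →ₗ[Λ] N') : D.part N →ₗ[R] D.part N' where
  toFun v := ⟨f v, by rw [mem_part, ← map_smul, v.2]⟩
  map_add' v w := by ext; simp
  map_smul' r v := by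
    ext
    change f (r • (v : N)) = r • f v
    rw [← algebraMap_smul Λ r (v : N), map_smul, algebraMap_smul]

@[simp] lemma partMap_coe (f : N →ₗ[Λ] N') (v : D.part N) : (D.partMap f v : N') = f v := rfl

lemma partMap_injective (f : N →ₗ[Λ] N') (hf : Function.Injective f) :
    Function.Injective (D.partMap f) := by
  intro v w h
  exact Subtype.ext (hf (congrArg Subtype.val h))

lemma partMap_surjective (f : N →ₗ[Λ] N') (hf : Function.Surjective f) :
    Function.Surjective (D.partMap f) := by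
  intro w
  obtain ⟨v, hv⟩ := hf w
  refine ⟨⟨D.e • v, ?_⟩, ?_⟩
  · rw [mem_part, ← mul_smul, D.idem]
  · ext
    rw [partMap_coe, map_smul, hv]
    exact w.2

lemma partMap_exact {N'' : Type} [AddCommGroup N''] [Module Λ N''] [Module R N'']
    [IsScalarTower R Λ N''] (f : N →ₗ[Λ] N') (g : N' →ₗ[Λ] N'') (hf : Function.Injective f)
    (h : Function.Exact f g) : Function.Exact (D.partMap f) (D.partMap g) := by
  intro v
  constructor
  · intro hv
    have h1 : g v = 0 := congrArg Subtype.val hv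
    obtain ⟨u, hu⟩ := (h _).1 h1
    refine ⟨⟨u, ?_⟩, ?_⟩
    · rw [mem_part]
      apply hf
      rw [map_smul, hu]
      exact v.2
    · ext
      exact hu
  · rintro ⟨u, rfl⟩
    ext
    exact h.apply_apply_eq_zero _

variable (N) in
/-- the invariant of a module. -/
noncomputable def inv : ℕ∞ := defect R (D.act N D.Y) ω (p * m)

variable [IsDomain R] {θ : R}

lemma inv_ne_top [IsDiscreteValuationRing R] [Module.Finite R N] (hn : ((p * m : ℕ) : R) ≠ 0)
    (hω : IsPrimitiveRoot ω (p * m)) (hθ : θ * ω = 1) : D.inv N ≠ ⊤ := by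
  refine defect_ne_top hn hω hθ ?_
  rw [act_pow, D.pow]
  ext v
  simp

omit [IsDomain R] in
lemma cast_toNat {a b : ℕ∞} {q : ℕ} (ha : a ≠ ⊤) {c : ℕ∞} (h : a = b + q * c) :
    (a.toNat : ZMod q) = b.toNat := by
  rcases Nat.eq_zero_or_pos q with rfl | hq
  · simp only [Nat.cast_zero, zero_mul, add_zero] at h
    rw [h]
  have hb : b ≠ ⊤ := by rintro rfl; rw [top_add] at h; exact ha h
  have hc' : (q : ℕ∞) * c ≠ ⊤ := by rintro h2; rw [h2, add_top] at h; exact ha h
  have h1 : a.toNat = b.toNat + q * c.toNat := by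
    rw [h, ENat.toNat_add hb hc', ENat.toNat_mul]
    simp
  rw [h1]
  push_cast
  simp

lemma inv_add [IsDiscreteValuationRing R] {N'' : Type} [AddCommGroup N''] [Module Λ N'']
    [Module R N''] [IsScalarTower R Λ N''] [Module.Finite R N] [Module.Finite R N']
    [Module.Finite R N'']
    [Module.IsTorsionFree R N''] (f : N →ₗ[Λ] N') (g : N' →ₗ[Λ] N'')
    (hf : Function.Injective f) (hg : Function.Surjective g) (hfg : Function.Exact f g)
    (hn : ((p * m : ℕ) : R) ≠ 0) (hω : IsPrimitiveRoot ω (p * m)) (hθ : θ * ω = 1) :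
    ((D.inv N').toNat : ZMod p) = (D.inv N).toNat + (D.inv N'').toNat := by
  obtain ⟨c, (hc : D.inv N' = D.inv N + D.inv N'' + p * c)⟩ := defect_add (Y₁ := D.act N D.Y) (Y₂ := D.act N' D.Y) (Y₃ := D.act N'' D.Y)
    (D.partMap f) (D.partMap g) (D.partMap_injective f hf) (D.partMap_surjective g hg)
    (D.partMap_exact f g hf hfg) (fun v => by ext; simp) (fun v => by ext; simp) hn hω hθ
    (D.xEquiv N') (D.xEquiv N'') (fun v => by ext; simp) (D.act_xEquiv N') (D.act_xEquiv N'')
  have h1 := cast_toNat (D.inv_ne_top (N := N') hn hω hθ) hc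
  rw [h1, ENat.toNat_add (D.inv_ne_top (N := N) hn hω hθ) (D.inv_ne_top (N := N'') hn hω hθ)]
  push_cast
  rfl

lemma inv_sub [IsDiscreteValuationRing R] [Module.Finite R N] [Module.Finite R N']
    [Module.IsTorsionFree R N'] (f : N →ₗ[Λ] N')
    (hf : Function.Injective f)
    (hn : ((p * m : ℕ) : R) ≠ 0) (hω : IsPrimitiveRoot ω (p * m)) (hθ : θ * ω = 1)
    (hfin : Module.length R (D.part N' ⧸ LinearMap.range (D.partMap f)) ≠ ⊤) :
    ((D.inv N).toNat : ZMod p) +
      (Module.length R (D.part N' ⧸ LinearMap.range (D.partMap f))).toNat =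
      (D.inv N').toNat := by
  obtain ⟨c, (hc : D.inv N + Module.length R (D.part N' ⧸ LinearMap.range (D.partMap f)) =
    D.inv N' + p * c)⟩ := defect_sub (Y₁ := D.act N D.Y) (Y₂ := D.act N' D.Y)
    (D.partMap f) (D.partMap_injective f hf) (fun v => by ext; simp) hn hω hθ
    (D.xEquiv N) (D.xEquiv N') (fun v => by ext; simp) (D.act_xEquiv N) (D.act_xEquiv N')
  have h0 : D.inv N + Module.length R (D.part N' ⧸ LinearMap.range (D.partMap f)) ≠ ⊤ :=
    WithTop.add_ne_top.2 ⟨D.inv_ne_top (N := N) hn hω hθ, hfin⟩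
  have h1 := cast_toNat h0 hc
  have h2 := ENat.toNat_add (D.inv_ne_top (N := N) hn hω hθ) hfin
  rw [h2] at h1
  push_cast at h1
  exact h1

/-- The invariant as a homomorphism on `G₀^R(Λ)`. -/
noncomputable def hom [IsDiscreteValuationRing R] [Module.Finite R Λ]
    (hn : ((p * m : ℕ) : R) ≠ 0) (hω : IsPrimitiveRoot ω (p * m)) (hθ : θ * ω = 1) :
    G0R R Λ →+ ZMod p :=
  QuotientAddGroup.lift _
    (FreeAbelianGroup.lift (fun M : LatticeMod R Λ => ((D.inv M.carrier).toNat : ZMod p))) (by
    rw [AddSubgroup.closure_le]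
    rintro r ⟨L, M, N, ⟨f, g, hf, hfg, hg⟩, rfl⟩
    rw [SetLike.mem_coe, AddMonoidHom.mem_ker, map_sub, map_sub, FreeAbelianGroup.lift_apply_of,
      FreeAbelianGroup.lift_apply_of, FreeAbelianGroup.lift_apply_of]
    have : Module.Finite R L.carrier := Module.Finite.trans Λ L.carrier
    have : Module.Finite R M.carrier := Module.Finite.trans Λ M.carrier
    have : Module.Finite R N.carrier := Module.Finite.trans Λ N.carrier
    rw [D.inv_add f g hf hg hfg hn hω hθ]
    ring)

lemma hom_cls [IsDiscreteValuationRing R] [Module.Finite R Λ]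
    (hn : ((p * m : ℕ) : R) ≠ 0) (hω : IsPrimitiveRoot ω (p * m)) (hθ : θ * ω = 1)
    (M : LatticeMod R Λ) :
    D.hom hn hω hθ (G0R.cls M) = ((D.inv M.carrier).toNat : ZMod p) := by
  unfold G0R.cls hom
  rw [QuotientAddGroup.lift_mk, FreeAbelianGroup.lift_apply_of]

end TwistData

end Pool.Agent.H49Swan
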