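import Pool.Agent.H49Swan.HopfOrd
import Pool.Agent.H49Swan.Invariant

/-!
The two lattices and the main theorem.
-/

set_option autoImplicit false

open scoped TensorProduct

namespace Pool.Agent.H49Swan

section main

variable {p : ℕ} [Fact p.Prime] {R K G : Type} [CommRing R] [IsDomain R]
  [IsDiscreteValuationRing R] [Field K] [Algebra R K] [IsFractionRing R K] [Group G]

/-- The `R`-module of all `a ∈ K[G]` with coefficients in the ideal `I`, congruent to each other
modulo the ideal `J`, and with `z a = ζ a`. -/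
def lat (K : Type) {R G : Type} [CommRing R] [Field K] [Algebra R K] [Group G] (I J : Ideal R)
    (z : G) (ζ : R) : Submodule R (MonoidAlgebra K G) where
  carrier := {a | (∀ g, ∃ r ∈ I, a.coeff g = algebraMap R K r) ∧
    (∀ g h, ∃ r ∈ J, a.coeff g - a.coeff h = algebraMap R K r) ∧
    MonoidAlgebra.single z 1 * a = ζ • a}
  add_mem' := by
    rintro a b ⟨ha1, ha2, ha3⟩ ⟨hb1, hb2, hb3⟩
    refine ⟨fun g => ?_, fun g h => ?_, ?_⟩
    · obtain ⟨r, hr, h1⟩ := ha1 g
      obtain ⟨s, hs, h2⟩ := hb1 g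
      exact ⟨r + s, I.add_mem hr hs, by simp [h1, h2]⟩
    · obtain ⟨r, hr, h1⟩ := ha2 g h
      obtain ⟨s, hs, h2⟩ := hb2 g h
      refine ⟨r + s, J.add_mem hr hs, ?_⟩
      rw [map_add, ← h1, ← h2]
      simp
      ring
    · rw [mul_add, ha3, hb3, smul_add]
  zero_mem' := ⟨fun g => ⟨0, I.zero_mem, by simp⟩, fun g h => ⟨0, J.zero_mem, by simp⟩, by simp⟩
  smul_mem' := by
    rintro c a ⟨ha1, ha2, ha3⟩
    refine ⟨fun g => ?_, fun g h => ?_, ?_⟩
    · obtain ⟨r, hr, h1⟩ := ha1 g
      exact ⟨c * r, I.mul_mem_left c hr, by simp [h1, Algebra.smul_def]⟩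
    · obtain ⟨r, hr, h1⟩ := ha2 g h
      refine ⟨c * r, J.mul_mem_left c hr, ?_⟩
      rw [map_mul, ← h1]
      simp [Algebra.smul_def]
      ring
    · rw [Algebra.mul_smul_comm, ha3, smul_comm]

lemma single_mul_mem_lat {I J : Ideal R} {z : G} (hz : z ∈ Subgroup.center G) {ζ : R}
    {a : MonoidAlgebra K G} (ha : a ∈ lat K I J z ζ) (g : G) :
    MonoidAlgebra.single g 1 * a ∈ lat K I J z ζ := by
  obtain ⟨ha1, ha2, ha3⟩ := ha
  refine ⟨fun h => ?_, fun h k => ?_, ?_⟩
  · obtain ⟨r, hr, h1⟩ := ha1 (g⁻¹ * h)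
    exact ⟨r, hr, by rw [MonoidAlgebra.coeff_single_mul_apply, one_mul, h1]⟩
  · obtain ⟨r, hr, h1⟩ := ha2 (g⁻¹ * h) (g⁻¹ * k)
    exact ⟨r, hr, by
      rw [MonoidAlgebra.coeff_single_mul_apply, MonoidAlgebra.coeff_single_mul_apply, one_mul,
        one_mul, h1]⟩
  · rw [← mul_assoc, MonoidAlgebra.single_mul_single, one_mul,
      ← Subgroup.mem_center_iff.1 hz g]
    have : (MonoidAlgebra.single (g * z) 1 : MonoidAlgebra K G) =
        MonoidAlgebra.single g 1 * MonoidAlgebra.single z 1 := by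
      rw [MonoidAlgebra.single_mul_single, one_mul]
    rw [this, mul_assoc, ha3, Algebra.mul_smul_comm]

/-- the character of `ZMod p` with values the powers of `ζ`. -/
noncomputable def chi (p : ℕ) [Fact p.Prime] (K : Type) {R : Type} [CommRing R] [Field K]
    [Algebra R K] {ζ : R} (hζ : ζ ^ p = 1) : AddChar (ZMod p) K :=
  AddChar.zmodChar p (ζ := algebraMap R K ζ) (by rw [← map_pow, hζ, map_one])

lemma chi_apply {ζ : R} (hζ : ζ ^ p = 1) (j : ZMod p) :
    chi p K hζ j = algebraMap R K (ζ ^ j.val) := by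
  rw [chi, AddChar.zmodChar_apply, map_pow]

lemma chi_primitive {ζ : R} (hζ : IsPrimitiveRoot ζ p) : (chi p K hζ.pow_eq_one).IsPrimitive :=
  AddChar.zmodChar_primitive_of_primitive_root p
    (hζ.map_of_injective (IsFractionRing.injective R K))

lemma idem_mul_of_mem_lat {I J : Ideal R} {z : G} {ζ : R} (hp : (p : K) ≠ 0)
    (hζ : IsPrimitiveRoot ζ p) {a : MonoidAlgebra K G} (ha : a ∈ lat K I J z ζ) (i : ZMod p) :
    idem (chi p K hζ.pow_eq_one) (cz p K z) i * a = if i = 1 then a else 0 := by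
  have h1 : ∀ k : ℕ, (MonoidAlgebra.single (z ^ k) 1 : MonoidAlgebra K G) * a =
      algebraMap R K (ζ ^ k) • a := by
    intro k
    induction k with
    | zero => rw [pow_zero, ← MonoidAlgebra.one_def]; simp
    | succ k ih =>
      have h2 : (MonoidAlgebra.single (z ^ (k + 1)) 1 : MonoidAlgebra K G) =
          MonoidAlgebra.single z 1 * MonoidAlgebra.single (z ^ k) 1 := by
        rw [MonoidAlgebra.single_mul_single, one_mul, pow_succ']
      rw [h2, mul_assoc, ih, Algebra.mul_smul_comm, ha.2.2, pow_succ, map_mul, mul_smul,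
        algebraMap_smul K ζ a]
  have h2 : ∀ j, cz p K z j * a = chi p K hζ.pow_eq_one j • a := by
    intro j
    rw [cz, h1, chi_apply]
  rw [idem, Algebra.smul_mul_assoc, Finset.sum_mul]
  have h3 : ∀ j : ZMod p, (chi p K hζ.pow_eq_one (-(i * j)) • cz p K z j) * a =
      chi p K hζ.pow_eq_one (j * (1 - i)) • a := by
    intro j
    rw [Algebra.smul_mul_assoc, h2, smul_smul, ← AddChar.map_add_eq_mul]
    congr 2
    ring
  simp only [h3]
  rw [← Finset.sum_smul, sum_psi (chi_primitive hζ), smul_smul]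
  simp only [sub_eq_zero]
  by_cases h : i = 1
  · subst h
    simp [hp]
  · rw [if_neg h, if_neg (Ne.symm h)]
    simp

variable {z : G} (hz : z ∈ Subgroup.center G) (hzp : z ^ p = 1) (hp : (p : K) ≠ 0) {ζ : R}
  (hζ : IsPrimitiveRoot ζ p)

/-- the Hopf order. -/
noncomputable abbrev hord : Subalgebra R (MonoidAlgebra K G) :=
  ord R hz hzp hp (chi_primitive (K := K) hζ)

/-- `lat` as a submodule over the Hopf order. -/
noncomputable def latΛ (I J : Ideal R) : Submodule (hord hz hzp hp hζ) (MonoidAlgebra K G) where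
  carrier := lat K I J z ζ
  add_mem' := fun ha hb => add_mem ha hb
  zero_mem' := zero_mem _
  smul_mem' := by
    rintro ⟨c, hc⟩ a ha
    change c * a ∈ lat K I J z ζ
    change c ∈ ordModule R _ z at hc
    induction hc using Submodule.span_induction with
    | mem x hx =>
      obtain ⟨⟨g, i⟩, rfl⟩ := hx
      rw [gen, mul_assoc, idem_mul_of_mem_lat hp hζ ha]
      split_ifs
      · exact single_mul_mem_lat hz ha g
      · rw [mul_zero]; exact zero_mem _
    | zero => rw [zero_mul]; exact zero_mem _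
    | add x y _ _ hx hy => rw [add_mul]; exact add_mem hx hy
    | smul r x _ hx => rw [Algebra.smul_mul_assoc]; exact Submodule.smul_mem _ r hx

lemma mem_latΛ {I J : Ideal R} {a : MonoidAlgebra K G} :
    a ∈ latΛ hz hzp hp hζ I J ↔ a ∈ lat K I J z ζ := Iff.rfl

/-- `lat` and `latΛ` agree as `R`-modules. -/
noncomputable def latEquiv (I J : Ideal R) : lat K I J z ζ ≃ₗ[R] latΛ hz hzp hp hζ I J where
  toFun a := ⟨a.1, a.2⟩
  invFun a := ⟨a.1, a.2⟩
  map_add' _ _ := rfl
  map_smul' _ _ := rfl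
  left_inv _ := rfl
  right_inv _ := rfl

lemma torsionFree : Module.IsTorsionFree R (MonoidAlgebra K G) := by
  refine Module.IsTorsionFree.of_smul_eq_zero fun r a h => ?_
  rw [← algebraMap_smul K r a, smul_eq_zero] at h
  rcases h with h | h
  · left
    exact (map_eq_zero_iff _ (IsFractionRing.injective R K)).1 h
  · right; exact h

lemma lat_finite [Finite G] (I J : Ideal R) : Module.Finite R (lat K I J z ζ) := by
  have h1 : lat K I J z ζ ≤
      Submodule.span R (Set.range fun g : G => (MonoidAlgebra.single g 1 : MonoidAlgebra K G)) := by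
    intro a ha
    have := Fintype.ofFinite G
    choose r hr using fun g => ha.1 g
    have h2 : a = ∑ g, r g • MonoidAlgebra.single g (1 : K) := by
      ext h
      classical
      simp only [MonoidAlgebra.coeff_sum, MonoidAlgebra.coeff_smul, MonoidAlgebra.coeff_single,
        Finsupp.coe_finsetSum, Finset.sum_apply, Finsupp.smul_apply, Finsupp.single_apply]
      rw [Finset.sum_eq_single h]
      · simp [(hr h).2, Algebra.smul_def]
      · intro b _ hb
        simp [hb]
      · simp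
    rw [h2]
    exact Submodule.sum_mem _ fun g _ => Submodule.smul_mem _ _ (Submodule.subset_span ⟨g, rfl⟩)
  have h3 : (Submodule.span R
      (Set.range fun g : G => (MonoidAlgebra.single g 1 : MonoidAlgebra K G))).FG :=
    Submodule.fg_span (Set.finite_range _)
  have h4 := isNoetherian_of_fg_of_noetherian _ h3
  have h5 : IsNoetherian R (lat K I J z ζ) := isNoetherian_of_le h1
  exact Module.IsNoetherian.finite R _

lemma latΛ_finite [Finite G] (I J : Ideal R) : Module.Finite R (latΛ hz hzp hp hζ I J) := by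
  have := lat_finite (K := K) (z := z) (ζ := ζ) (G := G) I J
  exact Module.Finite.equiv (latEquiv hz hzp hp hζ I J)

lemma latΛ_torsionFree (I J : Ideal R) : Module.IsTorsionFree R (latΛ hz hzp hp hζ I J) := by
  have := torsionFree (R := R) (K := K) (G := G)
  infer_instance

lemma latΛ_free [Finite G] (I J : Ideal R) : Module.Free R (latΛ hz hzp hp hζ I J) := by
  have := latΛ_finite hz hzp hp hζ I J
  have := latΛ_torsionFree hz hzp hp hζ I J
  exact Module.free_of_finite_type_torsion_free' (R := R) (M := latΛ hz hzp hp hζ I J)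

/-- `latΛ` as a bundled lattice. -/
noncomputable def latMod [Finite G] (I J : Ideal R) : LatticeMod R (hord hz hzp hp hζ) :=
  have := latΛ_finite hz hzp hp hζ I J
  { carrier := latΛ hz hzp hp hζ I J
    finite := Module.Finite.of_restrictScalars_finite R _ _
    free := latΛ_free hz hzp hp hζ I J }

/-- the inclusion of lattices. -/
noncomputable def latIncl [Finite G] {I J I' J' : Ideal R} (h : lat K I J z ζ ≤ lat K I' J' z ζ) :
    (latMod hz hzp hp hζ I J).carrier →ₗ[hord hz hzp hp hζ]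
      (latMod hz hzp hp hζ I' J').carrier :=
  Submodule.inclusion (p := latΛ hz hzp hp hζ I J) (p' := latΛ hz hzp hp hζ I' J') h

lemma latIncl_injective [Finite G] {I J I' J' : Ideal R}
    (h : lat K I J z ζ ≤ lat K I' J' z ζ) :
    Function.Injective (latIncl hz hzp hp hζ h) :=
  Submodule.inclusion_injective _

/-! ### The invariant for the Hopf order -/

lemma single_mem_hord (g : G) : MonoidAlgebra.single g 1 ∈ hord hz hzp hp hζ :=
  single_mem_ordModule hp (chi_primitive hζ) g

lemma idem_mem_hord (i : ZMod p) :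
    idem (chi p K hζ.pow_eq_one) (cz p K z) i ∈ hord hz hzp hp hζ := by
  have h : gen (chi p K hζ.pow_eq_one) z (1, i) = idem (chi p K hζ.pow_eq_one) (cz p K z) i := by
    rw [gen, ← MonoidAlgebra.one_def, one_mul]
  rw [← h]
  exact Submodule.subset_span ⟨_, rfl⟩

/-- the twist data given by elements `x`, `y` of `G` with `y x = z x y`. -/
noncomputable def twist {m : ℕ} {ω : R} (hω : ω ^ m = ζ) {x y : G} (hxy : y * x = z * (x * y))
    (hy : y ^ (p * m) = 1) : TwistData R (hord hz hzp hp hζ) p m ω where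
  e := ⟨idem (chi p K hζ.pow_eq_one) (cz p K z) 1, idem_mem_hord hz hzp hp hζ 1⟩
  X := ⟨⟨MonoidAlgebra.single x 1, single_mem_hord hz hzp hp hζ x⟩,
    ⟨MonoidAlgebra.single x⁻¹ 1, single_mem_hord hz hzp hp hζ x⁻¹⟩,
    by
      apply Subtype.ext
      change MonoidAlgebra.single x 1 * MonoidAlgebra.single x⁻¹ 1 = 1
      rw [MonoidAlgebra.single_mul_single, mul_inv_cancel, one_mul, MonoidAlgebra.one_def],
    by
      apply Subtype.ext
      change MonoidAlgebra.single x⁻¹ 1 * MonoidAlgebra.single x 1 = 1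
      rw [MonoidAlgebra.single_mul_single, inv_mul_cancel, one_mul, MonoidAlgebra.one_def]⟩
  Y := ⟨MonoidAlgebra.single y 1, single_mem_hord hz hzp hp hζ y⟩
  idem := by
    apply Subtype.ext
    change idem _ _ 1 * idem _ _ 1 = idem _ _ 1
    rw [idem_mul_idem hp (chi_primitive hζ) (cz_add hzp), if_pos rfl]
  comm := fun a => Subtype.ext (commute_idem hz _ 1 (a : MonoidAlgebra K G)).eq
  pow := by
    apply Subtype.ext
    change (MonoidAlgebra.single y 1 : MonoidAlgebra K G) ^ (p * m) = 1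
    rw [MonoidAlgebra.single_pow, hy, one_pow, MonoidAlgebra.one_def]
  rel := by
    apply Subtype.ext
    change (MonoidAlgebra.single y 1 * MonoidAlgebra.single x 1 *
      idem (chi p K hζ.pow_eq_one) (cz p K z) 1 : MonoidAlgebra K G) =
      ω ^ m • (MonoidAlgebra.single x 1 * MonoidAlgebra.single y 1 *
        idem (chi p K hζ.pow_eq_one) (cz p K z) 1)
    rw [MonoidAlgebra.single_mul_single, hxy, hω]
    have h1 : (MonoidAlgebra.single (z * (x * y)) (1 * 1) : MonoidAlgebra K G) =
        MonoidAlgebra.single x 1 * MonoidAlgebra.single y 1 * cz p K z 1 := by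
      rw [cz, MonoidAlgebra.single_mul_single, MonoidAlgebra.single_mul_single,
        ← Subgroup.mem_center_iff.1 hz (x * y), ZMod.val_one, pow_one]
      simp
    rw [h1, mul_assoc _ (cz p K z 1), c_mul_idem (cz_add hzp), mul_one, chi_apply, ZMod.val_one,
      pow_one, Algebra.mul_smul_comm, algebraMap_smul]

/-! ### The two lattices have different invariants -/

include hz hζ in
open IsLocalRing in
/-- an element of `lat` with coefficients congruent to `1`. -/
lemma exists_base (hzo : orderOf z = p) {θ : R} (hθ : θ * ζ = 1)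
    (hζm : ζ - 1 ∈ maximalIdeal R) [Finite G] :
    ∃ (a : MonoidAlgebra K G) (u : G → R), (∀ g, a.coeff g = algebraMap R K (u g)) ∧
      (∀ g, IsUnit (u g)) ∧ a ∈ lat K (⊤ : Ideal R) (maximalIdeal R) z ζ := by
  classical
  have hθu : IsUnit θ := IsUnit.of_mul_eq_one _ hθ
  have hθm : ∀ k : ℕ, θ ^ k - 1 ∈ maximalIdeal R := by
    intro k
    have h1 : θ - 1 ∈ maximalIdeal R := by
      have : θ - 1 = -θ * (ζ - 1) := by
        have : θ * ζ = 1 := hθ
        linear_combination this
      rw [this]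
      exact Ideal.mul_mem_left _ _ hζm
    exact Ideal.mem_of_dvd _ (sub_one_dvd_pow_sub_one θ k) h1
  have hθp : θ ^ p = 1 := by
    have : (θ * ζ) ^ p = 1 := by rw [hθ, one_pow]
    rwa [mul_pow, hζ.pow_eq_one, mul_one] at this
  -- exponents
  have hex : ∀ g : G, ∃ k : ℕ,
      ((QuotientGroup.mk g : G ⧸ Subgroup.zpowers z).out)⁻¹ * g = z ^ k := by
    intro g
    have h1 : ((QuotientGroup.mk g : G ⧸ Subgroup.zpowers z).out)⁻¹ * g ∈ Subgroup.zpowers z := by
      rw [← QuotientGroup.eq, QuotientGroup.out_eq']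
    rw [← mem_powers_iff_mem_zpowers] at h1
    obtain ⟨k, hk⟩ := h1
    exact ⟨k, hk.symm⟩
  choose k hk using hex
  have hcomm : ∀ g, g * z = z * g := Subgroup.mem_center_iff.1 hz
  have hkz : ∀ g, θ ^ k (z * g) = θ * θ ^ k g := by
    intro g
    have h1 : (QuotientGroup.mk (z * g) : G ⧸ Subgroup.zpowers z) = QuotientGroup.mk g := by
      rw [QuotientGroup.eq, ← hcomm, mul_inv_rev, mul_assoc, inv_mul_cancel, mul_one]
      exact Subgroup.inv_mem _ (Subgroup.mem_zpowers z)
    have h2 : z ^ k (z * g) = z ^ (k g + 1) := by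
      rw [← hk, h1, ← mul_assoc, hcomm, mul_assoc, hk, pow_succ']
    have h3 : k (z * g) ≡ k g + 1 [MOD p] := by
      rw [← hzo]
      exact pow_eq_pow_iff_modEq.1 h2
    rw [pow_eq_pow_mod _ hθp, h3, ← pow_eq_pow_mod _ hθp, pow_succ']
  let a : MonoidAlgebra K G :=
    MonoidAlgebra.ofCoeff (Finsupp.equivFunOnFinite.symm fun g => algebraMap R K (θ ^ k g))
  have ha : ∀ g, a.coeff g = algebraMap R K (θ ^ k g) := fun g => rfl
  refine ⟨a, fun g => θ ^ k g, ha, fun g => hθu.pow _, fun g => ⟨_, trivial, ha g⟩, ?_, ?_⟩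
  · intro g h
    refine ⟨θ ^ k g - θ ^ k h, ?_, by rw [ha, ha, map_sub]⟩
    have : θ ^ k g - θ ^ k h = (θ ^ k g - 1) - (θ ^ k h - 1) := by ring
    rw [this]
    exact sub_mem (hθm _) (hθm _)
  · ext g
    rw [MonoidAlgebra.coeff_single_mul_apply, one_mul, MonoidAlgebra.coeff_smul,
      Finsupp.smul_apply, ha, ha, Algebra.smul_def, ← map_mul]
    congr 1
    have h1 := hkz (z⁻¹ * g)
    rw [mul_inv_cancel_left] at h1
    rw [h1, ← mul_assoc, mul_comm ζ, hθ, one_mul]

section final

variable {m : ℕ} {ω : R} (hω : ω ^ m = ζ) {x y : G} (hxy : y * x = z * (x * y))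
  (hy : y ^ (p * m) = 1)

open IsLocalRing

lemma lat_le : lat K (maximalIdeal R) (maximalIdeal R) z ζ ≤
    lat K (⊤ : Ideal R) (maximalIdeal R) z ζ := by
  rintro a ⟨h1, h2, h3⟩
  exact ⟨fun g => by obtain ⟨r, _, hr⟩ := h1 g; exact ⟨r, trivial, hr⟩, h2, h3⟩

lemma mem_part_lat [Finite G] {I J : Ideal R} (a : (latMod hz hzp hp hζ I J).carrier) :
    a ∈ (twist hz hzp hp hζ hω hxy hy).part (latMod hz hzp hp hζ I J).carrier := by
  rw [TwistData.mem_part]
  apply Subtype.ext
  change idem (chi p K hζ.pow_eq_one) (cz p K z) 1 * (a : latΛ hz hzp hp hζ I J).1 =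
    (a : latΛ hz hzp hp hζ I J).1
  rw [idem_mul_of_mem_lat hp hζ (a : latΛ hz hzp hp hζ I J).2, if_pos rfl]

lemma length_quot [Finite G] (hzo : orderOf z = p) {θ : R} (hθ : θ * ζ = 1)
    (hζm : ζ - 1 ∈ maximalIdeal R) :
    Module.length R ((twist hz hzp hp hζ hω hxy hy).part
      (latMod hz hzp hp hζ (⊤ : Ideal R) (maximalIdeal R)).carrier ⧸
      LinearMap.range ((twist hz hzp hp hζ hω hxy hy).partMap
        (latIncl hz hzp hp hζ (lat_le (K := K) (z := z) (ζ := ζ) (R := R))))) = 1 := by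
  set D := twist hz hzp hp hζ hω hxy hy with hD
  let M₁ := (latMod hz hzp hp hζ (⊤ : Ideal R) (maximalIdeal R)).carrier
  let ι := D.partMap (latIncl hz hzp hp hζ (lat_le (K := K) (z := z) (ζ := ζ) (R := R)))
  -- the underlying element of the group algebra
  let val : D.part M₁ → MonoidAlgebra K G := fun b =>
    ((b : M₁) : latΛ hz hzp hp hζ (⊤ : Ideal R) (maximalIdeal R)).1
  have hval_mem : ∀ b, val b ∈ lat K (⊤ : Ideal R) (maximalIdeal R) z ζ := fun b =>
    ((b : M₁) : latΛ hz hzp hp hζ (⊤ : Ideal R) (maximalIdeal R)).2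
  have hrange : ∀ b : D.part M₁, b ∈ LinearMap.range ι ↔
      val b ∈ lat K (maximalIdeal R) (maximalIdeal R) z ζ := by
    intro b
    constructor
    · rintro ⟨u, rfl⟩
      exact ((u : (latMod hz hzp hp hζ (maximalIdeal R) (maximalIdeal R)).carrier) :
        latΛ hz hzp hp hζ (maximalIdeal R) (maximalIdeal R)).2
    · intro h
      exact ⟨⟨(⟨val b, h⟩ : latΛ hz hzp hp hζ (maximalIdeal R) (maximalIdeal R)),
        mem_part_lat hz hzp hp hζ hω hxy hy _⟩, rfl⟩
  obtain ⟨a, u, hau, hu, ha⟩ := exists_base (K := K) hz hζ hzo hθ hζm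
  let a' : D.part M₁ :=
    ⟨(⟨a, ha⟩ : latΛ hz hzp hp hζ (⊤ : Ideal R) (maximalIdeal R)),
      mem_part_lat hz hzp hp hζ hω hxy hy _⟩
  have hval_smul : ∀ (r : R), val (r • a') = r • a := fun r => rfl
  have hval_sub : ∀ b c, val (b - c) = val b - val c := fun b c => rfl
  let φ : R →ₗ[R] (D.part M₁ ⧸ LinearMap.range ι) :=
    (LinearMap.range ι).mkQ ∘ₗ LinearMap.toSpanSingleton R _ a'
  have hφ : ∀ r, φ r = Submodule.Quotient.mk (r • a') := fun r => rfl
  have hinj := IsFractionRing.injective R K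
  have hker : LinearMap.ker φ = maximalIdeal R := by
    ext r
    rw [LinearMap.mem_ker, hφ, Submodule.Quotient.mk_eq_zero, hrange, hval_smul]
    constructor
    · rintro ⟨h1, -, -⟩
      obtain ⟨s, hs, h2⟩ := h1 1
      rw [MonoidAlgebra.coeff_smul, Finsupp.smul_apply, hau, Algebra.smul_def, ← map_mul] at h2
      have h3 : r * u 1 ∈ maximalIdeal R := by rw [hinj h2]; exact hs
      exact (Ideal.mul_unit_mem_iff_mem _ (hu 1)).1 h3
    · intro hr
      refine ⟨fun g => ⟨r * u g, Ideal.mul_mem_right _ _ hr, ?_⟩, fun g h =>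
        ⟨r * u g - r * u h, sub_mem (Ideal.mul_mem_right _ _ hr) (Ideal.mul_mem_right _ _ hr),
          ?_⟩, ?_⟩
      · rw [MonoidAlgebra.coeff_smul, Finsupp.smul_apply, hau, Algebra.smul_def, ← map_mul]
      · rw [MonoidAlgebra.coeff_smul, Finsupp.smul_apply, hau, Algebra.smul_def, ← map_mul,
          Finsupp.smul_apply, hau, Algebra.smul_def, ← map_mul, ← map_sub]
      · exact (Submodule.smul_mem _ r ha).2.2
  have hsurj : Function.Surjective φ := by
    intro q
    obtain ⟨b, rfl⟩ := Submodule.mkQ_surjective _ q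
    obtain ⟨s, -, hs⟩ := (hval_mem b).1 1
    obtain ⟨w, hw⟩ := hu 1
    refine ⟨s * ((w⁻¹ : Rˣ) : R), ?_⟩
    rw [hφ, Submodule.mkQ_apply, Submodule.Quotient.eq, hrange, hval_sub, hval_smul]
    have hmem : (s * ((w⁻¹ : Rˣ) : R)) • a - val b ∈
        lat K (⊤ : Ideal R) (maximalIdeal R) z ζ :=
      sub_mem (Submodule.smul_mem _ _ ha) (hval_mem b)
    have h1 : ((s * ((w⁻¹ : Rˣ) : R)) • a - val b).coeff 1 = 0 := by
      rw [MonoidAlgebra.coeff_sub, MonoidAlgebra.coeff_smul, Finsupp.sub_apply,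
        Finsupp.smul_apply, hau, hs, ← hw, Algebra.smul_def, ← map_mul, mul_assoc,
        Units.inv_mul, mul_one, sub_self]
    refine ⟨fun g => ?_, hmem.2.1, hmem.2.2⟩
    obtain ⟨r, hr, h2⟩ := hmem.2.1 g 1
    exact ⟨r, hr, by rw [← h2, h1, sub_zero]⟩
  have e := LinearMap.quotKerEquivOfSurjective φ hsurj
  change Module.length R (D.part M₁ ⧸ LinearMap.range ι) = 1
  rw [← e.length_eq, hker, Module.length_eq_one_iff]
  exact isSimpleModule_iff_isCoatom.2 (Ideal.IsMaximal.out (I := maximalIdeal R))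

/-- After extension of scalars the two lattices become isomorphic. -/
lemma extendMap_bijective [Finite G] {Λ : Subalgebra R (MonoidAlgebra K G)}
    (hΛ : IsOrder K Λ) {M N : LatticeMod R Λ} (f : M.carrier →ₗ[Λ] N.carrier)
    (hf : Function.Injective f) (c : R) (hc : c ≠ 0)
    (hcf : ∀ n, ∃ m, f m = (c • n : N.carrier)) : Function.Bijective (hΛ.extendMap f) := by
  have hflat : Module.Flat R K := IsLocalization.flat K (nonZeroDivisors R)
  refine ⟨Module.Flat.lTensor_preserves_injective_linearMap (M := K) (f.restrictScalars R) hf,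
    ?_⟩
  have hcK : algebraMap R K c ≠ 0 := fun h =>
    hc ((map_eq_zero_iff _ (IsFractionRing.injective R K)).1 h)
  intro t
  change K ⊗[R] N.carrier at t
  change ∃ s : K ⊗[R] M.carrier, (f.restrictScalars R).baseChange K s = t
  induction t using TensorProduct.induction_on with
  | zero => exact ⟨0, map_zero _⟩
  | add a b ha hb =>
    obtain ⟨a', rfl⟩ := ha
    obtain ⟨b', rfl⟩ := hb
    exact ⟨a' + b', map_add _ _ _⟩
  | tmul k n =>
    obtain ⟨m, hm⟩ := hcf n
    refine ⟨((algebraMap R K c)⁻¹ * k) ⊗ₜ[R] m, ?_⟩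
    rw [LinearMap.baseChange_tmul, LinearMap.restrictScalars_apply, hm,
      TensorProduct.tmul_smul, TensorProduct.smul_tmul', Algebra.smul_def]
    rw [← mul_assoc, mul_inv_cancel₀ hcK, one_mul]

end final

lemma zeta_sub_one_mem (hpm : (p : R) ∈ IsLocalRing.maximalIdeal R) {ζ : R} (hζ : ζ ^ p = 1) :
    ζ - 1 ∈ IsLocalRing.maximalIdeal R := by
  obtain ⟨r, hr⟩ := exists_add_pow_prime_eq (Fact.out : p.Prime) (ζ - 1) 1
  rw [sub_add_cancel, hζ, one_pow, mul_one] at hr
  have h1 : (ζ - 1) ^ p ∈ IsLocalRing.maximalIdeal R := by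
    have : (ζ - 1) ^ p = (p : R) * (-((ζ - 1) * r)) := by linear_combination -hr
    rw [this]
    exact Ideal.mul_mem_right _ _ hpm
  exact Ideal.IsPrime.mem_of_pow_mem inferInstance p h1

/-- **The Swan property fails** for the Hopf order `∑ R[G] e_i`. -/
theorem swan_fails [Finite G] {z : G} (hz : z ∈ Subgroup.center G) (hzo : orderOf z = p)
    {x y : G} (hxy : y * x = z * (x * y)) {m : ℕ} {ω : R} (hω : IsPrimitiveRoot ω (p * m))
    (hy : y ^ (p * m) = 1) (hpm : (p : R) ∈ IsLocalRing.maximalIdeal R)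
    (hn : ((p * m : ℕ) : R) ≠ 0) :
    ∃ (Λ : Subalgebra R (MonoidAlgebra K G)) (h : IsHopfOrder K Λ),
      ¬ Function.Injective h.toIsOrder.swanMap := by
  have hpR : (p : R) ≠ 0 := by
    intro h
    apply hn
    push_cast
    rw [h, zero_mul]
  have hp : (p : K) ≠ 0 := by
    intro h
    apply hpR
    apply IsFractionRing.injective R K
    rw [map_natCast, h, map_zero]
  have hzp : z ^ p = 1 := by rw [← hzo]; exact pow_orderOf_eq_one z
  have hn0 : 0 < p * m := by
    rcases Nat.eq_zero_or_pos (p * m) with h | h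
    · exact absurd (by rw [h]; simp) hn
    · exact h
  have hζ : IsPrimitiveRoot (ω ^ m) p := hω.pow hn0 (mul_comm p m)
  have hζm := zeta_sub_one_mem (R := R) hpm hζ.pow_eq_one
  have hθω : ω ^ (p * m - 1) * ω = 1 := by
    rw [← pow_succ, Nat.sub_add_cancel hn0, hω.pow_eq_one]
  have hθζ : (ω ^ (p * m - 1)) ^ m * ω ^ m = 1 := by rw [← mul_pow, hθω, one_pow]
  have hH : IsHopfOrder K (hord (K := K) hz hzp hp hζ) :=
    isHopfOrder_ord (R := R) hz hzp hp (chi_primitive (K := K) hζ)
  refine ⟨hord hz hzp hp hζ, hH, ?_⟩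
  intro hinj
  have hfinΛ : Module.Finite R (hord (K := K) hz hzp hp hζ) := hH.finite
  let D := twist (K := K) hz hzp hp hζ rfl hxy hy
  let M₁ := latMod (K := K) hz hzp hp hζ (⊤ : Ideal R) (IsLocalRing.maximalIdeal R)
  let M₂ := latMod (K := K) hz hzp hp hζ (IsLocalRing.maximalIdeal R)
    (IsLocalRing.maximalIdeal R)
  let ι : M₂.carrier →ₗ[hord (K := K) hz hzp hp hζ] M₁.carrier :=
    latIncl (K := K) hz hzp hp hζ lat_le
  have hι : Function.Injective ι := latIncl_injective hz hzp hp hζ _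
  -- the classes agree after extension of scalars
  have h1 : Function.Bijective (hH.toIsOrder.extendMap ι) := by
    refine extendMap_bijective hH.toIsOrder ι hι (p : R) hpR ?_
    intro n
    have hn1 := (n : latΛ hz hzp hp hζ (⊤ : Ideal R) (IsLocalRing.maximalIdeal R)).2
    have hn2 : (p : R) • (n : latΛ hz hzp hp hζ (⊤ : Ideal R)
        (IsLocalRing.maximalIdeal R)).1 ∈
        lat K (IsLocalRing.maximalIdeal R) (IsLocalRing.maximalIdeal R) z (ω ^ m) := by
      have h3 := Submodule.smul_mem _ (p : R) hn1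
      refine ⟨fun g => ?_, h3.2.1, h3.2.2⟩
      obtain ⟨r, -, hr⟩ := hn1.1 g
      exact ⟨p * r, Ideal.mul_mem_right _ _ hpm, by
        rw [MonoidAlgebra.coeff_smul, Finsupp.smul_apply, hr, Algebra.smul_def, map_mul]⟩
    exact ⟨(⟨_, hn2⟩ : latΛ hz hzp hp hζ (IsLocalRing.maximalIdeal R)
      (IsLocalRing.maximalIdeal R)), rfl⟩
  have h2 : hH.toIsOrder.swanMap (G0R.cls M₂) = hH.toIsOrder.swanMap (G0R.cls M₁) := by
    rw [swanMap_cls, swanMap_cls]
    exact G0.cls_eq _ _ _ h1
  have h3 := hinj h2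
  -- the invariants differ
  have h4 := congrArg (D.hom hn hω hθω) h3
  rw [D.hom_cls, D.hom_cls] at h4
  have hlen := length_quot hz hzp hp hζ rfl hxy hy hzo hθζ hζm
  have hM₁ : Module.Finite R M₁.carrier := Module.Finite.trans (hord (K := K) hz hzp hp hζ) _
  have hM₂ : Module.Finite R M₂.carrier := Module.Finite.trans (hord (K := K) hz hzp hp hζ) _
  have h5 := D.inv_sub ι hι hn hω hθω (by
    change Module.length R _ ≠ ⊤
    rw [hlen]
    exact ENat.one_ne_top)
  rw [hlen, h4] at h5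
  simp at h5

end main

end Pool.Agent.H49Swan
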