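import Pool.Agent.H49Swan.Groth

/-!
Short forms of the notions used in the final statement, for an order `Λ` in a `K`-algebra given
by its inclusion `j : Λ →+* A`.
-/

set_option autoImplicit false

open scoped TensorProduct

namespace Pool.Agent.H49Swan

/-- `V` is the extension of scalars of the `Λ`-lattice `M` along the inclusion `j : Λ → A`: there
is an injective `j`-semilinear map `ι : M → V` such that `ι(M)` generates `V` as an `A`-module.
When `A = K Λ`, `K` the fraction field of `R`, this says that `V` is `K ⊗[R] M`. -/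
def IsExtension {R Λ A : Type} [CommRing R] [Ring Λ] [Algebra R Λ] [Ring A] (j : Λ →+* A)
    (M : LatticeMod R Λ) (V : FGMod A) : Prop :=
  ∃ ι : M.carrier →ₛₗ[j] V.carrier, Function.Injective ι ∧ Submodule.span A (Set.range ι) = ⊤

/-- `φ` is the map `G₀^R(Λ) → G₀(A)` which sends `[M]` to the class of the extension of scalars
of `M`. -/
def IsSwanMap {R Λ A : Type} [CommRing R] [Ring Λ] [Algebra R Λ] [Ring A] (j : Λ →+* A)
    (φ : G0R R Λ →+ G0 A) : Prop :=
  ∀ (M : LatticeMod R Λ) (V : FGMod A), IsExtension j M V → φ (G0R.cls M) = G0.cls V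

/-- The Swan property fails: there is exactly one homomorphism `φ : G₀^R(Λ) → G₀(A)` which sends
`[M]` to the class of the extension of scalars of `M`, and it is not injective. -/
def SwanPropertyFails (R : Type) {Λ A : Type} [CommRing R] [Ring Λ] [Algebra R Λ] [Ring A]
    (j : Λ →+* A) : Prop :=
  ∃ φ : G0R R Λ →+ G0 A, IsSwanMap j φ ∧ (∀ ψ : G0R R Λ →+ G0 A, IsSwanMap j ψ → ψ = φ) ∧
    ¬ Function.Injective φ

/-- The ring homomorphism `j : Λ → A` is the inclusion of an `R`-order in the `K`-algebra `A`: it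
is injective and compatible with `R → K`, the `R`-module `Λ` is finitely generated and `Λ` spans
`A` over `K`. -/
structure IsOrderIncl (R K : Type) {Λ A : Type} [CommRing R] [Field K] [Algebra R K] [Ring Λ]
    [Algebra R Λ] [Ring A] [Algebra K A] (j : Λ →+* A) : Prop where
  injective : Function.Injective j
  map_scalar (r : R) : j (algebraMap R Λ r) = algebraMap K A (algebraMap R K r)
  finite : Module.Finite R Λ
  span_eq_top : Submodule.span K (Set.range j) = ⊤

/-- `Δ(S) ⊆ S ⊗ S`: for `a` in `S`, `Δ(a)` is a sum of tensors `b ⊗ c` with `b`, `c` in `S`. -/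
def ComulClosed (K : Type) {H : Type} [Field K] [AddCommMonoid H] [Module K H] [Coalgebra K H]
    (S : Set H) : Prop :=
  ∀ a ∈ S, Coalgebra.comul a ∈ AddSubmonoid.closure {t | ∃ b ∈ S, ∃ c ∈ S, t = b ⊗ₜ[K] c}

/-- `ε(S) ⊆ R`. -/
def CounitIn (R K : Type) {H : Type} [CommRing R] [Field K] [Algebra R K] [AddCommMonoid H]
    [Module K H] [Coalgebra K H] (S : Set H) : Prop :=
  ∀ a ∈ S, ∃ r : R, Coalgebra.counit a = algebraMap R K r

/-- The ring homomorphism `j : Λ → H` is the inclusion of an `R`-Hopf order in the `K`-Hopf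
algebra `H`: an `R`-order with `Δ(Λ) ⊆ Λ ⊗ Λ`, `ε(Λ) ⊆ R` and `S(Λ) ⊆ Λ`. -/
structure IsHopfOrderIncl (R K : Type) {Λ H : Type} [CommRing R] [Field K] [Algebra R K] [Ring Λ]
    [Algebra R Λ] [Ring H] [HopfAlgebra K H] (j : Λ →+* H) : Prop where
  isOrderIncl : IsOrderIncl R K j
  comul_mem : ComulClosed K (Set.range j)
  counit_mem : CounitIn R K (Set.range j)
  antipode_mem (a : Λ) : ∃ b : Λ, HopfAlgebra.antipode K (j a) = j b

end Pool.Agent.H49Swan
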